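import Pool.Agent.Q155.NL.N49
import Pool.Agent.Q155.KG.Crv
import Pool.Agent.Q283.GM.BQ
import Pool.Agent.Q283.GM.Eul
import Pool.Agent.Q283.LP.X7

/-!
# The 2-part of the leading-term formula for all the linear patterns of divisors of almost every integer

`E_m` is the quadratic twist by `m` of `X_0(49) : y² + x y = x³ - x² - 2 x - 1`, where `m` is in the class: a squarefree
positive integer whose prime factors are `1` modulo `4`. A member `m` of the class is called odd if `E_m(ℚ)` is finite,
the 2-primary part of `Ш(E_m/ℚ)` is zero, `L(E_m, 1) ≠ 0` and the quotient `#E_m(ℚ)_tors² L(E_m, 1) / (Ω⁺ ∏ c_p)` (an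
algebraic number, which is the order of `Ш(E_m/ℚ)` according to the leading-term formula) is a unit at all the primes
above two: so the 2-part of the leading-term formula holds for `E_m`.

For all the members `m` of the class this quotient is integral at the primes above two, and it is a unit there if and
only if `m` is odd (the formula modulo two, `Formula`).

For a positive integer `D` let `divs D` be the set of the members of the class which divide `D` (modulo squares a group;
there are `2 ^ w` of them, `w` the number of the prime factors `1` modulo `4` of `D`). Forms are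
`F_j(d) = N_j d_1 ^ e_j1 ⋯ d_n ^ e_jn`, `d = (d_1, …, d_n)` in `(divs D) ^ n`, with `N_j` ANY members of the class (nothing
is assumed about the curves `E_(N_j)`) and `e_j ≠ 0` any vectors over `𝔽₂`, the pairs `(N_j, e_j)` different; the
values are taken modulo squares. For example `d_1, d_2, d_1 d_2, 5 d_1, 5 d_1 d_2, …`.

THEOREM. There is ONE set `S` of positive integers of NATURAL DENSITY `1`, of relative density `1` also in the class, such
that for every finite family of forms and every `ε > 0`, for all large `D` in `S`, with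
`κ = ∏ (1 - 2 ^ (-2 i - 1)) = 0.4194…`:

(1) ALL PATTERNS. For EVERY set `Q` of indices the share of the `d` such that `F_j(d)` is odd exactly for the `j` in `Q`
    is within `ε` of `κ ^ |Q| (1 - κ) ^ (M - |Q|)`; so the quotient above is, for `j ∉ Q`, integral and not a unit at the
    primes above two (or zero).
(2) The 2-part of the formula holds for ALL the curves `E_(F_j(d))` at once, with units at two, for a share `≥ κ ^ M - ε` of
    the `d`, and for one of them at least for a share `≥ 1 - (1 - κ) ^ M - ε`.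
(3) LAW OF LARGE NUMBERS. The share of the `d` for which the frequency of the `j` with `F_j(d)` odd differs from `κ` by
    `η` or more is at most `2 exp (- η² M / 4) + ε`.
(4) UNIFORMITY OF ALL ORDERS. For all `k`, all `N` in the class and every polynomial phase `φ` of degree `≤ k` on `divs D`
    the function `d ↦ 1_(N d odd) - κ` has correlation at most `ε` with `φ`.

The earlier law `OddFormulaOverDivisors` is about the single form `m d` (its frequencies for each `m` separately, inside
the `D` of the class only), `FormulaModTwo` about the mean over all the twists.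
-/

set_option autoImplicit false

open NumberField IsDedekindDomain WeierstrassCurve MeasureTheory
open Finset Filter

namespace Pool.Agent.Results.MP_92892c_nt.FormulaPatternsInsideDivisors

open Pool.Agent.TH841.SH.D (Pt Sha)

/-- For `D ≡ 1 mod 4` the quadratic twist by `D` of the elliptic curve
`X_0(49) : y² + x y = x³ - x² - 2 x - 1`:
the curve `y² + x y = x³ - (3 D + 1) / 4 x² - 2 D² x - D³`. -/
def twist (D : ℕ) : WeierstrassCurve ℤ := ⟨1, -((3 * D + 1) / 4), 0, -2 * D ^ 2, -D ^ 3⟩

/-- The curve `E_D` over `ℚ`. -/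
def E (D : ℕ) : WeierstrassCurve ℚ := (twist D).map (Int.castRingHom ℚ)

/-- The equation is minimal at the finite place `v` of `ℚ`: no change of variables over `ℚ` that
keeps the coefficients integral at `v` decreases the order of the discriminant. -/
def MinimalAt (W : WeierstrassCurve ℚ) (v : HeightOneSpectrum (𝓞 ℚ)) : Prop :=
  ∀ C : VariableChange ℚ, v.valuation ℚ (C • W).a₁ ≤ 1 → v.valuation ℚ (C • W).a₂ ≤ 1 →
    v.valuation ℚ (C • W).a₃ ≤ 1 → v.valuation ℚ (C • W).a₄ ≤ 1 → v.valuation ℚ (C • W).a₆ ≤ 1 →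
    v.valuation ℚ (C • W).Δ ≤ v.valuation ℚ W.Δ

/-- `W⁰(ℚ_v)`, the group of the points of `W` over the completion `ℚ_v` with nonsingular reduction:
the point at infinity and the points `(x, y)` where `x` is not integral, or one of the two
derivatives of `y² + a₁ x y + a₃ y - x³ - a₂ x² - a₄ x - a₆` is a unit at `(x, y)`.
Here `Pt W ℚ_v` is the group of the points of `W` over `ℚ_v`. -/
noncomputable def nonsing (W : WeierstrassCurve ℚ) (v : HeightOneSpectrum (𝓞 ℚ)) :
    AddSubgroup (Pt W (v.adicCompletion ℚ)) :=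
  AddSubgroup.closure {P | ∀ x y h, P = Affine.Point.some x y h →
    1 < Valued.v x ∨
    Valued.v ((W.baseChange (v.adicCompletion ℚ)).a₁ * y -
      (3 * x ^ 2 + 2 * (W.baseChange (v.adicCompletion ℚ)).a₂ * x +
        (W.baseChange (v.adicCompletion ℚ)).a₄)) = 1 ∨
    Valued.v (2 * y + (W.baseChange (v.adicCompletion ℚ)).a₁ * x +
      (W.baseChange (v.adicCompletion ℚ)).a₃) = 1}

/-- The Tamagawa number `c_v = [W(ℚ_v) : W⁰(ℚ_v)]` of a minimal equation. -/
noncomputable def c (W : WeierstrassCurve ℚ) (v : HeightOneSpectrum (𝓞 ℚ)) : ℕ :=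
  (nonsing W v).index

/-- The product of the Tamagawa numbers. -/
noncomputable def Tam (W : WeierstrassCurve ℚ) : ℕ := ∏ᶠ v : HeightOneSpectrum (𝓞 ℚ), c W v

/-- `4 x³ + b₂ x² + 2 b₄ x + b₆ = (2 y + a₁ x + a₃)²`. -/
def cubic (W : WeierstrassCurve ℤ) {R : Type} [CommRing R] (x : R) : R :=
  4 * x ^ 3 + W.b₂ * x ^ 2 + 2 * W.b₄ * x + W.b₆

/-- `∫_{W(ℝ)} |ω|` with `ω = dx / (2 y + a₁ x + a₃)`, as an integral over `x`: two real points lie
over each `x` with `cubic x > 0`. -/
noncomputable def realPeriod (W : WeierstrassCurve ℤ) : ℝ :=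
  2 * ∫ x in {x : ℝ | 0 < cubic W x}, 1 / √(cubic W x)

open Classical in
/-- The order of the torsion subgroup of `E_D(ℚ)`. -/
noncomputable def torsOrder (D : ℕ) : ℕ :=
  Nat.card (AddCommGroup.torsion (E D).toAffine.Point)

/-- The order of the Tate-Shafarevich group predicted by the formula in rank zero, for the value `l` of
the L-function at `s = 1`: `#E_D(ℚ)_tors² l / (Ω⁺ ∏ c_p)`. -/
noncomputable def anOrder (D : ℕ) (l : ℂ) : ℂ :=
  l * (torsOrder D : ℂ) ^ 2 / ((realPeriod (twist D) : ℝ) * (Tam (E D) : ℂ))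

/-- An algebraic number which is integral at all the primes above two. -/
def IntegralAtTwo (z : ℂ) : Prop := ∃ m : ℤ, Odd m ∧ _root_.IsIntegral ℤ ((m : ℂ) * z)

/-- `E_D(ℚ)` is finite and `Ш(E_D/ℚ)` has no element of order two. -/
def Good (D : ℕ) : Prop := Finite (E D).toAffine.Point ∧ ∀ x : Sha (E D), x + x = 0 → x = 0

/-- The 2-primary part of `Ш(E_D/ℚ)` is zero. -/
def ShaTwoPrimaryZero (D : ℕ) : Prop := ∀ (x : Sha (E D)) (n : ℕ), 2 ^ n • x = 0 → x = 0

open Classical in
/-- `1` if `m` is not a square modulo `p`, and `0` if it is -/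
noncomputable def nonsq (p m : ℕ) : ZMod 2 := if IsSquare (m : ZMod p) then 0 else 1

open Classical in
/-- `1` if `-7` is not a fourth power modulo `p`, and `0` if it is -/
noncomputable def nonfourth (p : ℕ) : ZMod 2 := if ∃ y : ZMod p, y ^ 4 = -7 then 0 else 1

/-- The matrix over the field with two elements, with rows and columns indexed by `P`: the entry at
`(i, j)` is `nonsq i j` for `i ≠ j`, and the entry at `(i, i)` is the sum of `nonfourth i` and of the
`nonsq i l` for all the `l ≠ i` in `Q` and `P`. -/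
noncomputable def mat (Q P : Finset ℕ) : Matrix P P (ZMod 2) := Matrix.of fun i j =>
  if i = j then nonfourth i + ∑ q ∈ Q, nonsq i q + ∑ p ∈ P.erase i, nonsq i p else nonsq i j

/-- The class of the `D`: squarefree, all prime factors `1` modulo `4`. -/
def Class (D : ℕ) : Prop := Squarefree D ∧ ∀ p : ℕ, p.Prime → p ∣ D → p % 4 = 1

open Classical in
/-- The prime factors of `D` which split in `ℚ(√-7)`. -/
noncomputable def splitPart (D : ℕ) : Finset ℕ := D.primeFactors.filter fun p => IsSquare (-7 : ZMod p)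

open Classical in
/-- The prime factors of `D` which do not split in `ℚ(√-7)`. -/
noncomputable def inertPart (D : ℕ) : Finset ℕ := D.primeFactors.filter fun p => ¬ IsSquare (-7 : ZMod p)

/-- The corank of the matrix of `D`: the number of the columns minus the rank. -/
noncomputable def corank (D : ℕ) : ℕ :=
  (splitPart D).card - (mat (inertPart D) (splitPart D)).rank

/-- The number `κ = (1 - 1/2) (1 - 1/8) (1 - 1/32) ⋯`. -/
noncomputable def κ : ℝ := ∏' i : ℕ, (1 - (1 / 2 : ℝ) ^ (2 * i + 1))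

/-- The limit law `κ / ((2 - 1) (4 - 1) ⋯ (2 ^ b - 1))`. -/
noncomputable def α (b : ℕ) : ℝ := κ / ∏ i ∈ Finset.range b, ((2 : ℝ) ^ (i + 1) - 1)

/-- The formula modulo the primes above two, for all the `D` of the class. -/
def Formula : Prop :=
  ∀ D : ℕ, Class D →
    (∀ v : HeightOneSpectrum (𝓞 ℚ), MinimalAt (E D) v) ∧
    (∃ t : ℕ, Odd t ∧ torsOrder D = 2 * t) ∧
    Tam (E D) = 2 ^ (1 + ((inertPart D).card + 2 * (splitPart D).card)) ∧
    (∃ Λ : ℂ → ℂ, Differentiable ℂ Λ ∧ (∀ s : ℂ, 2 < s.re → Λ s = (E D).LSeries s) ∧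
      IntegralAtTwo (anOrder D (Λ 1)) ∧
      ((Λ 1 ≠ 0 ∧ IntegralAtTwo (anOrder D (Λ 1))⁻¹) ↔ Good D)) ∧
    (Good D ↔ corank D = 0) ∧ (Good D → ShaTwoPrimaryZero D)

/-- `D` is odd: `E_D(ℚ)` is finite, the 2-primary part of `Ш(E_D/ℚ)` is zero, `L(E_D, s)` is entire with
`L(E_D, 1) ≠ 0`, and the order of `Ш` which is predicted by the formula is an algebraic number which is a
unit at all the primes above two. -/
def OddFormula (D : ℕ) : Prop :=
  Finite (E D).toAffine.Point ∧ ShaTwoPrimaryZero D ∧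
    ∃ Λ : ℂ → ℂ, Differentiable ℂ Λ ∧ (∀ s : ℂ, 2 < s.re → Λ s = (E D).LSeries s) ∧ Λ 1 ≠ 0 ∧
      IntegralAtTwo (anOrder D (Λ 1)) ∧ IntegralAtTwo (anOrder D (Λ 1))⁻¹

open scoped Classical

/-- the squarefree part of `n`: the squarefree `s` such that `n / s` is a square -/
def squarefreePart (n : ℕ) : ℕ := ∏ p ∈ n.primeFactors.filter (fun p => n.factorization p % 2 = 1), p

/-- the members of the class which divide `D` -/
noncomputable def divs (D : ℕ) : Finset ℕ := D.divisors.filter Class

/-- the form `N d_1 ^ e_1 ⋯ d_n ^ e_n` with exponents `0, 1` -/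
def form {n : ℕ} (N : ℕ) (e : Fin n → ZMod 2) (d : Fin n → ℕ) : ℕ := N * ∏ i, d i ^ (e i).val

/-- the vector of the values of the forms: the squarefree parts of the `N_j d_1 ^ e_j1 ⋯ d_n ^ e_jn` -/
def values {M n : ℕ} (N : Fin M → ℕ) (e : Fin M → Fin n → ZMod 2) (d : Fin n → ℕ) : Fin M → ℕ :=
  fun j => squarefreePart (form (N j) (e j) d)

/-- the share of the `n`-tuples of elements of `divs D` with the property `P` -/
noncomputable def share {n : ℕ} (D : ℕ) (P : (Fin n → ℕ) → Prop) : ℝ :=
  (((Fintype.piFinset fun _ : Fin n => divs D).filter P).card : ℝ) /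
    (Fintype.piFinset fun _ : Fin n => divs D).card

/-- the frequency of the `j` such that `v j` is odd -/
noncomputable def frequency {M : ℕ} (v : Fin M → ℕ) : ℝ :=
  ((Finset.univ.filter fun j => OddFormula (v j)).card : ℝ) / M

/-- the polynomial phases of degree `≤ k` on the divisors of `D`: real functions whose derivatives of order `k + 1` with
respect to the multiplication of the divisors modulo squares are equal to `1` -/
def Phase (k D : ℕ) (φ : ℕ → ℝ) : Prop :=
  ∀ x ∈ divs D, ∀ y : Fin (k + 1) → ℕ, (∀ i, y i ∈ divs D) →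
    ∏ ω : Finset (Fin (k + 1)), φ (squarefreePart (x * ∏ i ∈ ω, y i)) = 1

/-- the number of the `D ≤ X` with the property `P` -/
noncomputable def count (P : ℕ → Prop) (X : ℕ) : ℕ := ((Finset.Icc 1 X).filter P).card

section proof

open Pool.Agent.Y698

lemma base_eq {D j : ℕ} (hj : D = 1 + 4 * j) : E D = AX ℚ j :=
  twZ_map hj ℚ

lemma cubic_eq {D j : ℕ} (hj : D = 1 + 4 * j) {R : Type} [CommRing R] (x : R) :
    cubic (twist D) x = psD (1 + 4 * j) x := by
  have h1 : (3 * (D : ℤ) + 1) / 4 = 1 + 3 * j := by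
    rw [hj]
    push_cast
    omega
  unfold cubic twist WeierstrassCurve.b₂ WeierstrassCurve.b₄ WeierstrassCurve.b₆ psD
  simp only
  rw [h1, hj]
  push_cast
  ring

lemma real_eq {D j : ℕ} (hj : D = 1 + 4 * j) : realPeriod (twist D) =
    ∫ x in {x : ℝ | 0 < psD (1 + 4 * j) x}, 2 / Real.sqrt (psD (1 + 4 * j) x) := by
  unfold realPeriod
  simp only [cubic_eq hj]
  rw [← integral_const_mul]
  congr 1
  funext x
  ring

lemma tors_eq {D j : ℕ} (hj : D = 1 + 4 * j) :
    torsOrder D = Pool.Agent.Y698.SG.tnum (Pool.Agent.Y698.AX ℚ j) := by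
  have key : ∀ i : DecidableEq ℚ, Nat.card (@AddCommGroup.torsion _
      (@WeierstrassCurve.Affine.Point.instAddCommGroup ℚ _ (Pool.Agent.Y698.AX ℚ j).toAffine i)) =
      Pool.Agent.Y698.SG.tnum (Pool.Agent.Y698.AX ℚ j) := by
    intro i
    cases Subsingleton.elim i (fun a b => Classical.propDecidable (a = b))
    rfl
  unfold torsOrder
  rw [base_eq hj]
  exact key _

lemma an_eq {D j : ℕ} (hj : D = 1 + 4 * j) (l : ℂ) : anOrder D l = Pool.Agent.Y698.SG.quoT ℚ j l := by
  rw [Q283.GB.quoT_Q]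
  unfold anOrder
  rw [tors_eq hj, base_eq hj, real_eq hj]
  have hT : Tam (Pool.Agent.Y698.AX ℚ j) = ∏ᶠ v, Pool.Agent.Y698.tam (Pool.Agent.Y698.AX ℚ j) v := rfl
  rw [hT]

lemma v_integral {Γ : Type} [LinearOrderedCommGroupWithZero Γ] (v : Valuation ℂ Γ) {x : ℂ}
    (h : _root_.IsIntegral ℤ x) : v x ≤ 1 := by
  have h1 : _root_.IsIntegral v.integer x := h.tower_top
  exact (Valuation.integer.integers v).mem_of_integral h1

lemma v_atTwo {z : ℂ} (h : IntegralAtTwo z) {Γ : Type} [LinearOrderedCommGroupWithZero Γ]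
    (v : Valuation ℂ Γ) (hv : v 2 < 1) : v z ≤ 1 := by
  obtain ⟨m, hm, hi⟩ := h
  have h1 := v_integral v hi
  rw [map_mul, v_oddI v hv hm, one_mul] at h1
  exact h1

open Q283.GW Q283.GB
open Q283.XF (nf)
open Q283.GM (rk cR)

lemma class_iff (D : ℕ) : Class D ↔ C4 D := by
  unfold Class C4 CF
  constructor
  · rintro ⟨h1, h2⟩
    exact ⟨h1, fun p hp => ⟨Nat.prime_of_mem_primeFactors hp,
      h2 p (Nat.prime_of_mem_primeFactors hp) (Nat.dvd_of_mem_primeFactors hp)⟩⟩
  · rintro ⟨h1, h2⟩
    exact ⟨h1, fun p hp hd => (h2 p (Nat.mem_primeFactors.2 ⟨hp, hd, h1.ne_zero⟩)).2⟩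

lemma A_sq {p : ℕ} (h1 : p.Prime) (h2 : p % 4 = 1) : ρ49.Φ.A p ↔ IsSquare (-7 : ZMod p) := by
  constructor
  · intro h
    exact (spl_A h).sq
  · intro h
    by_contra h3
    exact (inq_B h1 h2 h3).ns h

lemma split_eq {D : ℕ} (h : CF D.primeFactors) : splitPart D = PA D.primeFactors := by
  unfold splitPart PA
  refine Finset.filter_congr fun p hp => ?_
  rw [A_sq (h p hp).1 (h p hp).2]

lemma inert_eq {D : ℕ} (h : CF D.primeFactors) : inertPart D = QA D.primeFactors := by
  unfold inertPart QA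
  refine Finset.filter_congr fun p hp => ?_
  rw [A_sq (h p hp).1 (h p hp).2]

lemma rank_null (Q P : Finset ℕ) : P.card - (Y698.SG.mat Q P).rank =
    Module.finrank (ZMod 2) (LinearMap.ker (Y698.SG.mat Q P).mulVecLin) := by
  have h1 := LinearMap.finrank_range_add_finrank_ker (Y698.SG.mat Q P).mulVecLin
  rw [Module.finrank_fintype_fun_eq_card, Fintype.card_coe] at h1
  have h2 : (Y698.SG.mat Q P).rank =
    Module.finrank (ZMod 2) (LinearMap.range (Y698.SG.mat Q P).mulVecLin) := rfl
  omega

lemma corank_eq {D : ℕ} (h : CF D.primeFactors) : corank D = rk ρ49.Φ nf D.primeFactors := by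
  have key : ∀ Q P Q' P' : Finset ℕ, Q = Q' → P = P' →
      P.card - (mat Q P).rank = P'.card - (Y698.SG.mat Q' P').rank := by
    rintro Q P _ _ rfl rfl
    rfl
  rw [Q283.GW.rk_eq, ← rank_null]
  exact key _ _ _ _ (inert_eq h) (split_eq h)

lemma det_eq {D : ℕ} (h : CF D.primeFactors) :
    (mat (inertPart D) (splitPart D)).det ≠ 0 ↔ corank D = 0 := by
  rw [corank_eq h, split_eq h, inert_eq h]
  exact det_rk _

lemma prod_parts {D : ℕ} (hD : Squarefree D) :
    D = (∏ q ∈ inertPart D, q) * ∏ p ∈ splitPart D, p := by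
  conv_lhs => rw [← Nat.prod_primeFactors_of_squarefree hD]
  unfold inertPart splitPart
  rw [mul_comm]
  exact (Finset.prod_filter_mul_prod_filter_not _ _ _).symm

lemma good_iff {D : ℕ} (hD : C4 D) : Good D ↔ corank D = 0 := by
  obtain ⟨j, hj⟩ := hD.2.prod
  have hDj : D = 1 + 4 * j := by
    rw [← hj, union_A, Nat.prod_primeFactors_of_squarefree hD.1]
  unfold Good
  rw [base_eq hDj, crit_AX (QA_inq hD.2) (PA_spl _) hj, det_rk, corank_eq hD.2]

lemma formula {D : ℕ} (hD : C4 D) :
    (∀ v : HeightOneSpectrum (𝓞 ℚ), MinimalAt (E D) v) ∧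
    (∃ t : ℕ, Odd t ∧ torsOrder D = 2 * t) ∧
    Tam (E D) = 2 ^ (1 + ((inertPart D).card + 2 * (splitPart D).card)) ∧
    (∃ Λ : ℂ → ℂ, Differentiable ℂ Λ ∧ (∀ s : ℂ, 2 < s.re → Λ s = (E D).LSeries s) ∧
      IntegralAtTwo (anOrder D (Λ 1)) ∧
      ((Λ 1 ≠ 0 ∧ IntegralAtTwo (anOrder D (Λ 1))⁻¹) ↔ Good D)) := by
  obtain ⟨j, hj⟩ := hD.2.prod
  have hDj : D = 1 + 4 * j := by
    rw [← hj, union_A, Nat.prod_primeFactors_of_squarefree hD.1]
  have hQ := QA_inq hD.2
  have hP := PA_spl D.primeFactors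
  obtain ⟨t1, t2, t3⟩ := tam_Q hQ hP hj
  obtain ⟨Λ, h1, h2, h3⟩ := main_Q hQ hP hj
  have hst := tors_eq hDj
  rw [good_iff hD, hst, split_eq hD.2, inert_eq hD.2]
  simp only [an_eq hDj]
  rw [base_eq hDj]
  refine ⟨t2, t3, t1, Λ, h1, h2, Pool.Agent.Y698.int_of_val fun Γ _ v hv => (h3 Γ v hv).1, ?_⟩
  rw [corank_eq hD.2, ← det_rk]
  constructor
  · rintro ⟨h4, h5⟩
    intro hdet
    refine Pool.Agent.Y698.SG.exists_val2 fun Γ _ v hv => ?_
    refine ((h3 Γ v hv).2).1 (le_antisymm (h3 Γ v hv).1 ?_) hdet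
    have h6 := v_atTwo h5 v hv
    rw [map_inv₀] at h6
    by_cases h0 : v (Pool.Agent.Y698.SG.quoT ℚ j (Λ 1)) = 0
    · exfalso
      rw [Valuation.zero_iff] at h0
      rw [Q283.GB.quoT_Q] at h0
      rcases div_eq_zero_iff.1 h0 with h7 | h7
      · rcases mul_eq_zero.1 h7 with h8 | h8
        · exact h4 h8
        · obtain ⟨m, hm, hm2⟩ := t3
          rw [hm2] at h8
          have h9 : ((2 * m : ℕ) : ℂ) = 0 := pow_eq_zero_iff (two_ne_zero) |>.1 h8
          have h10 : 2 * m = 0 := by exact_mod_cast h9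
          have h11 : m = 0 := by omega
          rw [h11] at hm
          exact absurd hm (by decide)
      · have hL := Pool.Agent.Y698.exists_LD
        obtain ⟨L, Ω, hL⟩ := hL
        have hΩ : v Ω ≠ 0 := (v.ne_zero_iff).2 hL.lat.ne
        rcases mul_eq_zero.1 h7 with h8 | h8
        · obtain ⟨k2, -⟩ := Pool.Agent.Y698.v_periodsD hL v hv (D := 1 + 4 * j) (by omega)
            ⟨2 * j, by ring⟩
          rw [h8, map_zero] at k2
          exact hΩ k2.symm
        · rw [t1] at h8
          have h9 : (2 : ℂ) ^ (1 + ((QA D.primeFactors).card + 2 * (PA D.primeFactors).card)) = 0 := by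
            exact_mod_cast h8
          exact pow_ne_zero _ two_ne_zero h9
    · exact (inv_le_one₀ (zero_lt_iff.2 h0)).1 h6
  · intro hdet
    refine ⟨?_, Pool.Agent.Y698.int_of_val fun Γ _ v hv => by
      rw [map_inv₀, ((h3 Γ v hv).2).2 hdet, inv_one]⟩
    intro h0
    refine Pool.Agent.Y698.SG.exists_val2 fun Γ _ v hv => ?_
    have h5 := ((h3 Γ v hv).2).2 hdet
    rw [h0] at h5
    unfold Pool.Agent.Y698.SG.quoT at h5
    rw [zero_mul, zero_mul, zero_div, map_zero] at h5
    exact zero_ne_one h5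

lemma α_eq (b : ℕ) : α b = Y703.CQ.c2 * Y697.PQ.cf b := by
  unfold α
  have h : ∀ r, Y697.PQ.cf r = (∏ i ∈ Finset.range r, ((2 : ℝ) ^ (i + 1) - 1))⁻¹ := by
    intro r
    induction r with
    | zero => simp [Y697.PQ.cf]
    | succ r ih =>
      rw [show Y697.PQ.cf (r + 1) = Y697.PQ.cf r / (2 ^ (r + 1) - 1) from rfl, ih,
        Finset.prod_range_succ, mul_inv, div_eq_mul_inv]
  rw [h, div_eq_mul_inv]
  rfl

lemma odd_iff {D : ℕ} (hD : C4 D) : OddFormula D ↔ corank D = 0 := by
  rw [← good_iff hD]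
  constructor
  · rintro ⟨h1, h2, -⟩
    exact ⟨h1, fun x hx => h2 x 1 (by rw [pow_one, two_nsmul]; exact hx)⟩
  · intro hG
    obtain ⟨-, -, -, Λ, h1, h2, h3, h4⟩ := formula hD
    obtain ⟨h5, h6⟩ := h4.2 hG
    refine ⟨hG.1, ?_, Λ, h1, h2, h5, h3, h6⟩
    intro x n
    induction n with
    | zero => intro h; rwa [pow_zero, one_smul] at h
    | succ n ih =>
      intro h
      apply ih
      apply hG.2
      rw [← two_nsmul, smul_smul, ← pow_succ']
      exact h


end proof

section law

open _root_.Q283.LP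
open _root_.Q283.GW (C4 ρ49 DD_CF)
open _root_.Q283.GS (al)
open _root_.Q283.XF (nf)
open _root_.Q283.GM (rk)
open _root_.Q155.NL (Cl Alm)

theorem class_cl (D : ℕ) : Class D ↔ Cl ρ49.Φ D := by
  rw [class_iff, Q155.NL.cl_iff]

theorem divs_eq (D : ℕ) : divs D = dvN ρ49.Φ D := by
  unfold divs dvN
  exact Finset.filter_congr fun d _ => class_cl d

theorem share_eq {n D : ℕ} (P : (Fin n → ℕ) → Prop) : share D P = shN ρ49.Φ D P := by
  unfold share shN
  rw [divs_eq]

theorem c4_val {M n D : ℕ} (hD : D ≠ 0) {N : Fin M → ℕ} (hN : ∀ j, Class (N j)) (e : Fin M → Fin n → ZMod 2)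
    {d : Fin n → ℕ} (hd : ∀ i, d i ∈ dvN ρ49.Φ D) (j : Fin M) : C4 (values N e d j) :=
  (Q155.NL.cl_iff _).1 (frn_Cl ((class_cl _).1 (hN j)) (e j) fun i => ((mem_dvN hD).1 (hd i)).1)

theorem odd_rk {m : ℕ} (hm : C4 m) : OddFormula m ↔ rk ρ49.Φ nf m.primeFactors = 0 := by
  rw [odd_iff hm, corank_eq hm.2]

end law

open _root_.Q283.LP in
open _root_.Q283.GW in
open _root_.Q283.XF (nf) in
open _root_.Q283.GM (rk) in
open _root_.Q283.GS (al) in
open _root_.Q155.NL (Cl Alm) in
/-- **The 2-part of the leading-term formula for all the linear patterns of divisors of almost every integer.** -/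
theorem result :
    Formula ∧ (∀ m : ℕ, Class m → (OddFormula m ↔ corank m = 0)) ∧
    (∀ D : ℕ, D ≠ 0 → (divs D).card = 2 ^ (D.primeFactors.filter fun p => p % 4 = 1).card) ∧
    (∀ (n D : ℕ) (N : ℕ) (e : Fin n → ZMod 2) (d : Fin n → ℕ), D ≠ 0 → Class N →
      (∀ i, d i ∈ divs D) → Class (squarefreePart (form N e d)) ∧
        ∃ b : ℕ, b ≠ 0 ∧ form N e d = squarefreePart (form N e d) * b ^ 2) ∧
    (∃ S : ℕ → Prop, Tendsto (fun X : ℕ => (count S X : ℝ) / X) atTop (nhds 1) ∧
      Tendsto (fun X : ℕ => (count (fun D => Class D ∧ S D) X : ℝ) / count Class X) atTop (nhds 1) ∧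
      (∀ (M n : ℕ) (N : Fin M → ℕ) (e : Fin M → Fin n → ZMod 2), (∀ j, Class (N j)) →
        (∀ j, e j ≠ 0) → (∀ j l, j ≠ l → ¬ (e j = e l ∧ N j = N l)) → ∀ ε : ℝ, 0 < ε →
        ∃ D₀ : ℕ, ∀ D : ℕ, D₀ ≤ D → S D →
          (∀ Q : Finset (Fin M), |share D (fun d => ∀ j, (OddFormula (values N e d j) ↔ j ∈ Q)) -
            κ ^ Q.card * (1 - κ) ^ (M - Q.card)| ≤ ε) ∧
          κ ^ M - ε ≤ share D (fun d => ∀ j, OddFormula (values N e d j)) ∧
          1 - (1 - κ) ^ M - ε ≤ share D (fun d => ∃ j, OddFormula (values N e d j)) ∧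
          (0 < M → ∀ η : ℝ, 0 < η →
            share D (fun d => η ≤ |frequency (values N e d) - κ|) ≤
              2 * Real.exp (-(η ^ 2 * M / 4)) + ε)) ∧
      (∀ (k : ℕ) (N : ℕ), Class N → ∀ ε : ℝ, 0 < ε → ∃ D₀ : ℕ, ∀ D : ℕ, D₀ ≤ D → S D →
        ∀ φ : ℕ → ℝ, Phase k D φ →
          |(∑ d ∈ divs D, ((if OddFormula (squarefreePart (N * d)) then 1 else 0) - κ) * φ d) /
            ((divs D).card : ℝ)| ≤ ε)) ∧
    0.4194 < κ ∧ κ < 0.4195 := by
  have hκ : al 0 = κ := al0_c2
  have hκ1 : 0.4194 < κ := Pool.Agent.Y948.CQ.t_C2.2.2.2.1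
  have hκ2 : κ < 0.4195 := Pool.Agent.Y948.CQ.t_C2.2.2.2.2
  have h00 : alS {0} = κ := alS_zero.trans hκ
  refine ⟨fun D hD => ?_, fun D hD => odd_iff ((class_iff D).1 hD), fun D hD => ?_,
    fun n D N e d hD hN hd => ?_, ?_, hκ1, hκ2⟩
  · have hC := (class_iff D).1 hD
    obtain ⟨h1, h2, h3, h4⟩ := formula hC
    refine ⟨h1, h2, h3, h4, good_iff hC, fun hG => ?_⟩
    exact ((odd_iff hC).2 ((good_iff hC).1 hG)).2.1
  · rw [divs_eq, card_dvN _ hD]
    congr 1
    refine fcc fun p hp => ?_
    rw [P49]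
    exact ⟨fun h => h.2, fun h => ⟨Nat.prime_of_mem_primeFactors hp, h⟩⟩
  · rw [divs_eq] at hd
    have hd' : ∀ i, Cl ρ49.Φ (d i) := fun i => ((mem_dvN hD).1 (hd i)).1
    refine ⟨(class_cl _).2 (frn_Cl ((class_cl _).1 hN) e hd'), nat_sqf ?_⟩
    unfold form
    exact mul_ne_zero hN.1.ne_zero (Finset.prod_ne_zero_iff.2 fun i _ => pow_ne_zero _ (hd' i).1.ne_zero)
  · obtain ⟨S, hS, hS', hL, hP⟩ := mainT ρ49 nf
    have hcc : ∀ X : ℕ, count Class X = Q155.NL.cnt (Cl ρ49.Φ) X := by
      intro X
      unfold count Q155.NL.cnt Q155.NL.cs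
      exact fcc fun D _ => class_cl D
    refine ⟨S, ?_, ?_, fun M n N e hN he hd ε hε => ?_, fun k N hN ε hε => ?_⟩
    · have h1 := Q155.NL.tendsto_of_alm (C := fun _ => True) ⟨1, le_rfl, trivial⟩ hS
      refine h1.congr fun X => ?_
      have h2 : Q155.NL.cnt (fun _ => True) X = X := by
        have h0 : Q155.NL.cs (fun _ => True) X = Finset.Icc 1 X := by
          ext D
          rw [Q155.NL.mem_cs, Finset.mem_Icc]
          exact ⟨fun h => h.1, fun h => ⟨h, trivial⟩⟩
        unfold Q155.NL.cnt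
        rw [h0, Nat.card_Icc]
        omega
      rw [h2]
      congr 2
      unfold Q155.NL.cnt Q155.NL.cs count
      congr 1
      ext D
      simp
    · have h1 := Q155.NL.tendsto_of_alm (C := Cl ρ49.Φ) ⟨1, le_rfl, squarefree_one, by simp⟩ hS'
      refine h1.congr fun X => ?_
      rw [hcc]
      congr 2
      unfold Q155.NL.cnt Q155.NL.cs count
      exact fcc fun D _ => and_congr_left fun _ => (class_cl D).symm
    · have hN' : ∀ j, Cl ρ49.Φ (N j) := fun j => (class_cl _).1 (hN j)
      have e2 := law_tyT hL (Fin M) N e hN' he hd (show 0 < ε / 2 ^ M by positivity)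
      obtain ⟨D₀, hD₀⟩ := eventually_atTop.1 (e2.and (eventually_ne_atTop 0))
      refine ⟨D₀, fun D hD hSD => ?_⟩
      obtain ⟨k2, hD0⟩ := hD₀ D hD
      replace k2 := k2 hSD {0}
      rw [h00, Fintype.card_fin] at k2
      have hI := pi_pos ρ49.Φ (n := n) hD0
      have h4 : ε / 2 ^ M ≤ ε := div_le_self hε.le (one_le_pow₀ (by norm_num))
      have hodd : ∀ d ∈ Fintype.piFinset (fun _ : Fin n => dvN ρ49.Φ D), ∀ j : Fin M,
          (OddFormula (values N e d j) ↔
            rk ρ49.Φ nf (sqn (frn (N j) (e j) d)).primeFactors ∈ ({0} : Set ℕ)) := by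
        intro d hd j
        rw [odd_rk (c4_val hD0 hN e (fun i => Fintype.mem_piFinset.1 hd i) j)]
        exact Iff.rfl
      have hpat : ∀ Q : Finset (Fin M),
          share D (fun d => ∀ j, (OddFormula (values N e d j) ↔ j ∈ Q)) =
          shN ρ49.Φ D (fun d => ∀ j : Fin M,
            (rk ρ49.Φ nf (sqn (frn (N j) (e j) d)).primeFactors ∈ ({0} : Set ℕ) ↔ j ∈ Q)) := by
        intro Q
        rw [share_eq]
        refine le_antisymm (shN_mono fun d hd h j => ?_) (shN_mono fun d hd h j => ?_)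
        · rw [← hodd d hd j]
          exact h j
        · rw [hodd d hd j]
          exact h j
      have hmain : ∀ Q : Finset (Fin M),
          |share D (fun d => ∀ j, (OddFormula (values N e d j) ↔ j ∈ Q)) -
            κ ^ Q.card * (1 - κ) ^ (M - Q.card)| ≤ ε / 2 ^ M := by
        intro Q
        rw [hpat]
        exact k2 Q
      refine ⟨fun Q => (hmain Q).trans h4, ?_, ?_, fun hM η hη => ?_⟩
      · have h1 := (abs_le.1 (hmain Finset.univ)).1
        rw [Finset.card_univ, Fintype.card_fin, Nat.sub_self, pow_zero, mul_one] at h1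
        have h3 : share D (fun d => ∀ j, (OddFormula (values N e d j) ↔ j ∈ (Finset.univ : Finset (Fin M)))) ≤
            share D (fun d => ∀ j, OddFormula (values N e d j)) := by
          rw [share_eq, share_eq]
          exact shN_mono fun d hd h j => (h j).2 (Finset.mem_univ j)
        linarith
      · have h1 := (abs_le.1 (hmain ∅)).2
        rw [Finset.card_empty, Nat.sub_zero, pow_zero, one_mul] at h1
        have h2 : 1 ≤ share D (fun d => ∃ j, OddFormula (values N e d j)) +
            share D (fun d => ∀ j : Fin M, (OddFormula (values N e d j) ↔ j ∈ (∅ : Finset (Fin M)))) := by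
          rw [share_eq, share_eq]
          refine shN_or hD0 fun d hd => ?_
          by_cases h : ∃ j, OddFormula (values N e d j)
          · exact Or.inl h
          · exact Or.inr fun j => iff_of_false (fun h4 => h ⟨j, h4⟩) (Finset.notMem_empty j)
        linarith
      · have h2 := lln_gen hI (Fin M) (fun j d => OddFormula (values N e d j))
          (p := κ) (δ := ε / 2 ^ M) (by linarith) (by linarith) (fun Q => by
            have h3 := hmain Q
            rw [share_eq] at h3
            unfold shN at h3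
            have h5 : cE (Fintype.piFinset fun _ : Fin n => dvN ρ49.Φ D) (fun d => ∀ j : Fin M,
              (OddFormula (values N e d j) ↔ j ∈ Q)) -
              κ ^ Q.card * (1 - κ) ^ (Fintype.card (Fin M) - Q.card) *
                (Fintype.piFinset fun _ : Fin n => dvN ρ49.Φ D).card =
              (cE (Fintype.piFinset fun _ : Fin n => dvN ρ49.Φ D) (fun d => ∀ j : Fin M,
              (OddFormula (values N e d j) ↔ j ∈ Q)) /
                (Fintype.piFinset fun _ : Fin n => dvN ρ49.Φ D).card -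
              κ ^ Q.card * (1 - κ) ^ (Fintype.card (Fin M) - Q.card)) *
                (Fintype.piFinset fun _ : Fin n => dvN ρ49.Φ D).card := by
              field_simp
            rw [h5, abs_mul, abs_of_pos hI]
            refine mul_le_mul_of_nonneg_right ?_ hI.le
            rw [Fintype.card_fin]
            exact h3) (by rw [Fintype.card_fin]; exact hM) hη
        rw [Fintype.card_fin] at h2
        have h3 : (2 : ℝ) ^ M * (ε / 2 ^ M) = ε := by field_simp
        rw [h3] at h2
        rw [share_eq]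
        unfold shN
        rw [div_le_iff₀ hI]
        exact h2
    · obtain ⟨D₀, hD₀⟩ := eventually_atTop.1 ((hP k N ((class_cl _).1 hN) ε hε).and (eventually_ne_atTop 0))
      refine ⟨D₀, fun D hD hSD φ hφ => ?_⟩
      obtain ⟨k1, hD0⟩ := hD₀ D hD
      have h1 := k1 hSD {0} φ (by
        intro x hx y hy
        rw [← divs_eq] at hx
        exact hφ x hx y fun i => by rw [divs_eq]; exact hy i)
      rw [h00] at h1
      rw [divs_eq]
      refine le_trans (le_of_eq ?_) h1
      congr 2
      refine Finset.sum_congr rfl fun d hd => ?_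
      have hC : C4 (sqn (N * d)) := by
        have h2 := c4_val (M := 1) (n := 1) hD0 (N := fun _ => N) (fun _ => hN) (fun _ _ => 1)
          (d := fun _ => d) (fun _ => hd) 0
        have h3 : values (fun _ : Fin 1 => N) (fun _ _ => (1 : ZMod 2)) (fun _ : Fin 1 => d) 0 =
            sqn (N * d) := by
          unfold values form
          have h4 : (1 : ZMod 2).val = 1 := rfl
          rw [Fin.prod_const, h4, pow_one, pow_one]
          rfl
        rw [h3] at h2
        exact h2
      have h2 := odd_rk hC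
      by_cases h4 : rk ρ49.Φ nf (sqn (N * d)).primeFactors = 0
      · have h5 : OddFormula (squarefreePart (N * d)) := h2.2 h4
        rw [if_pos h5]
        have h6 : rk ρ49.Φ nf (sqn (N * d)).primeFactors ∈ ({0} : Set ℕ) := h4
        rw [if_pos h6]
      · have h5 : ¬ OddFormula (squarefreePart (N * d)) := fun h => h4 (h2.1 h)
        rw [if_neg h5]
        have h6 : ¬ rk ρ49.Φ nf (sqn (N * d)).primeFactors ∈ ({0} : Set ℕ) := h4
        rw [if_neg h6]

end Pool.Agent.Results.MP_92892c_nt.FormulaPatternsInsideDivisors
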