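import Pool.Agent.Q284.A.Dens
import Pool.Agent.Q284.A.Tor2
import Pool.Agent.Q1.PT.JIter

/-!
# The 2-parts of the leading-term formulas of several twists become independent under prime twists

`E_M` (`M = 1` modulo `4`) is the quadratic twist of `X_0(14)` by `M`, in the minimal form `WM M`. Let
`D_1, …, D_m` be ANY distinct elements of the class of the theorem `PerfectSquare` (row MP_9c97e9_nt): squarefree
of any sign, `1` modulo `4`, a square modulo `7`, all prime factors different from `3` and split completely in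
`ℚ(√-1, √2, √-7)` or inert in `ℚ(√2)` and in `ℚ(√-7)`.  No condition is put on the ranks, the Tate-Shafarevich groups
or the L-series of the curves `E_(D_i)`.  Twist all of them by the same split primes `p_1, p_2, …, p_k`.

For every `M ≠ 1` of the class the quotient `L(E_M, 1) #E_M(ℚ)_tors² / (Ω⁺ ∏ c_q)` is the square of an integer
`y`, and `y` is odd if and only if `TwoPart M`: the group `E_M(ℚ)` is finite, `Ш(E_M/ℚ)[2^∞] = 0` and
the 2-part of the leading-term formula holds.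

THEOREM.  Let `A` be any set of indices.  The iterated density `δ_k` of the `k`-tuples `(p_1, …, p_k)` of split primes
for which `TwoPart (D_i p_1 ⋯ p_k)` holds exactly for the `i` in `A` exists for every `k ≥ 1`, and
`δ_k → κ^|A| (1-κ)^(m-|A|)` as `k → ∞`, with `κ = ∏ (1 - 2^-(2i+1)) = 0.419…`: the `m` curves
`E_(D_1 p_1 ⋯ p_k), …, E_(D_m p_1 ⋯ p_k)` become independent, whatever the arithmetic of the curves `E_(D_i)` is.

The iterated density averages over `p_k` first, then over `p_(k-1)`, …, at last over `p_1` (natural densities in the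
set of all split primes; all the limits exist).

Inputs: the exact value as a square is helper284's theorem (`Pool/Agent/Q284/A`), based on the
starting files `Z704`, `Z705`, `Y17`, `Y687`; the equidistribution of the symbols and the bordered matrices are
helper283's (`Pool/Agent/Q283/TW`); the moment method for uniform symmetric forms is in the starting files `Y697`,
`Y703`.  New (`Pool/Agent/Q1/PT/Jnt`, `JLaw`, `JMain`, `JPrime`, `JIter`): the joint law of several chains of borderings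
with common new vertices, by a bound for the degeneracy of all pencils of the forms.
-/

set_option autoImplicit false

open Finset Filter Topology

namespace Pool.Agent.Results.MP_92892c_nt.IndependenceOfTwists

open Pool.Agent.Y700 (WM Omega IsL tamProd EQ)

/-- primes inert in `ℚ(√-7)` and in `ℚ(√2)` -/
def Inert (q : ℕ) : Prop :=
  q.Prime ∧ (q % 8 = 3 ∨ q % 8 = 5) ∧ (q % 7 = 3 ∨ q % 7 = 5 ∨ q % 7 = 6)

/-- primes congruent to `1` modulo `8` that split in `ℚ(√-7)` -/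
def Split (p : ℕ) : Prop := p.Prime ∧ p % 8 = 1 ∧ (p % 7 = 1 ∨ p % 7 = 2 ∨ p % 7 = 4)

/-- the class of discriminants (`D = 1` is allowed): squarefree, `1` modulo `4`, a square modulo `7`, all
prime factors different from `3` and split or inert as above -/
def Family (D : ℤ) : Prop := Squarefree D ∧ D % 4 = 1 ∧ (D % 7 = 1 ∨ D % 7 = 2 ∨ D % 7 = 4) ∧
  ∀ p : ℕ, p.Prime → (p : ℤ) ∣ D → p ≠ 3 ∧ (Split p ∨ Inert p)

/-- the order of the torsion group of `E_M(ℚ)` -/
noncomputable def torsionOrder (M : ℤ) : ℕ :=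
  Nat.card (AddCommGroup.torsion (EQ (WM M)).toAffine.Point)

/-- `L(E_M, 1) = z² Ω ∏ c_p / #E_M(ℚ)_tors²`: the order of `Ш` predicted by the formula is `z²` -/
def Quotient (M : ℤ) (z : ℝ) : Prop := ∀ f, IsL (WM M) f →
  f 1 = ((z ^ 2 * (Omega (WM M) * tamProd (WM M) / (torsionOrder M : ℝ) ^ 2) : ℝ) : ℂ)

/-- the `2`-part of the leading-term formula with trivial `2`-part of `Ш`: `E_M(ℚ)` is
finite, `Ш(E_M/ℚ)[2^∞] = 0` and the quotient `L(E_M, 1) #E_M(ℚ)_tors² / (Ω ∏ c_p)` is the square of an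
odd integer -/
def TwoPart (M : ℤ) : Prop := Finite (EQ (WM M)).toAffine.Point ∧
  (∀ (n : ℕ) (x : Pool.Agent.TH841.SH.D.Sha (EQ (WM M))), 2 ^ n • x = 0 → x = 0) ∧
  ∃ z : ℤ, Odd z ∧ Quotient M z

/-- the average of `g(p)` over the split primes `p` which do not divide `N` is `c` -/
def Mean (N : ℕ) (g : ℕ → ℝ) (c : ℝ) : Prop :=
  Tendsto (fun X : ℕ => open Classical in
    (∑ p ∈ (range (X + 1)).filter fun p => Split p ∧ ¬ p ∣ N, g p) /
      (((range (X + 1)).filter fun p => Split p).card : ℝ)) atTop (𝓝 c)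

/-- the iterated average of `F [p_1, …, p_k]` over the split primes `p_1 ∤ N`, `p_2 ∤ N p_1`, …,
`p_k ∤ N p_1 ⋯ p_(k-1)` is `c` (first over `p_k`, at last over `p_1`) -/
def IteratedMean : ℕ → ℕ → (List ℕ → ℝ) → ℝ → Prop
  | 0, _, F, c => c = F []
  | k + 1, N, F, c => ∃ g : ℕ → ℝ,
      (∀ p : ℕ, Split p → ¬ p ∣ N → IteratedMean k (N * p) (fun l => F (p :: l)) (g p)) ∧ Mean N g c

/-- the product `κ = (1 - 1/2)(1 - 1/8)(1 - 1/32)⋯` -/
noncomputable def κ : ℝ := ∏' i : ℕ, (1 - (1 / 2 : ℝ) ^ (2 * i + 1))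

theorem exists_root {D : ℤ} (h : D % 7 = 1 ∨ D % 7 = 2 ∨ D % 7 = 4) :
    ∃ β : ZMod 7, β ^ 2 = -((Pool.Agent.Q284.A.nrm D : ℤ) : ZMod 7) := by
  have key : ∀ z : ZMod 7, (z = 1 ∨ z = 2 ∨ z = 4) →
      (∃ β : ZMod 7, β ^ 2 = -(3 * z)) ∧ ∃ β : ZMod 7, β ^ 2 = z := by decide
  have hz : ((D : ℤ) : ZMod 7) = 1 ∨ ((D : ℤ) : ZMod 7) = 2 ∨ ((D : ℤ) : ZMod 7) = 4 := by
    have e : ((D : ℤ) : ZMod 7) = ((D % 7 : ℤ) : ZMod 7) := by
      have := ZMod.intCast_mod D 7
      exact_mod_cast this.symm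
    rw [e]
    rcases h with h | h | h <;> rw [h] <;> norm_num
  obtain ⟨h1, h2⟩ := key _ hz
  unfold Pool.Agent.Q284.A.nrm
  split_ifs
  · obtain ⟨β, hβ⟩ := h1
    exact ⟨β, by rw [hβ]; push_cast; ring⟩
  · obtain ⟨β, hβ⟩ := h2
    exact ⟨β, by rw [hβ]; push_cast; ring⟩

theorem exact {M : ℤ} (h : Family M) (h1 : M ≠ 1) :
    (∃ f, IsL (WM M) f) ∧
    ∃ y : ℤ, Quotient M y ∧ (Odd y ↔ Pool.Agent.Y682.YQ.Zer M) ∧ (Odd y ↔ TwoPart M) := by
  obtain ⟨hc, hf⟩ := Pool.Agent.Q284.A.fam (D := M) h h1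
  obtain ⟨β, hβ⟩ := exists_root hc.2.2.2.1
  have h4 : M % 4 = 1 := h.2.1
  have ht : torsionOrder M = 2 := Pool.Agent.Q284.A.tor_two h4 hc.1 hc.2.1 hc.2.2.1
  obtain ⟨a1, a2, a3, a4, k, Y, k1, k2, k3, k4⟩ :=
    Pool.Agent.Q284.A.main_gen (D := M) hc (β := β) hβ
  have ht' : Pool.Agent.Q284.A.tor M = 2 := ht
  have hk : k = 1 := by omega
  obtain ⟨y, y1, y2⟩ := hf β hβ
  have hex : ∃ e : ℕ, Pool.Agent.Q284.A.gross M β = 3 * 2 ^ e * y ∧
      Quotient M (k * Y / 2 ^ e) := ⟨_, y1, k4⟩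
  obtain ⟨e, y1', k5⟩ := hex
  rw [hk, Nat.cast_one, one_mul] at k5
  have hY : Y = 2 ^ e * y := by
    have h3 : 3 * Y = 3 * (2 ^ e * y) := by rw [← k3, y1']; ring
    linarith
  have e1 : ((Y : ℝ) / 2 ^ e) = (y : ℝ) := by
    rw [hY]
    push_cast
    field_simp
  rw [e1] at k5
  refine ⟨a4, y, k5, y2, ?_⟩
  constructor
  · intro hy
    have hz := y2.1 hy
    refine ⟨hz.1, fun n x hx => ?_, y, hy, k5⟩
    exact Pool.Agent.Q284.A.sha_two (D := M) h hz n x hx
  · rintro ⟨h1, h2, -⟩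
    refine y2.2 ⟨h1, fun x hx => h2 1 x ?_⟩
    rw [pow_one, two_nsmul]
    exact hx

open Classical in
/-- iterated means are unique -/
theorem unique (k : ℕ) : ∀ (N : ℕ) (F : List ℕ → ℝ) (c c' : ℝ), IteratedMean k N F c →
    IteratedMean k N F c' → c = c' := by
  induction k with
  | zero =>
    intro D F c c' h h'
    exact h.trans h'.symm
  | succ k ih =>
    rintro D F c c' ⟨g, h1, h2⟩ ⟨g', h1', h2'⟩
    refine tendsto_nhds_unique h2 (h2'.congr fun X => ?_)
    congr 1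
    refine Finset.sum_congr rfl fun p hp => ?_
    have hp' := (Finset.mem_filter.1 hp).2
    exact ih _ _ _ _ (h1' p hp'.1 hp'.2) (h1 p hp'.1 hp'.2)

open Classical in
/-- **The theorem.** -/
theorem result (m : ℕ) (D : Fin m → ℤ) (hD : ∀ i, Family (D i)) (hinj : Function.Injective D)
    (A : Finset (Fin m)) :
    (∃ δ : ℕ → ℝ,
      (∀ k : ℕ, 1 ≤ k → ∀ c : ℝ, IteratedMean k (∏ i, (D i).natAbs)
        (fun l => if (∀ i, TwoPart (D i * (l.prod : ℕ)) ↔ i ∈ A) then 1 else 0) c ↔ c = δ k) ∧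
      Tendsto δ atTop (𝓝 (κ ^ A.card * (1 - κ) ^ (m - A.card)))) ∧
    ∀ M : ℤ, Family M → M ≠ 1 → (∃ f, IsL (WM M) f) ∧
      ∃ y : ℤ, Quotient M y ∧ (Odd y ↔ TwoPart M) := by
  have h0 : ∀ i, (D i).natAbs ≠ 0 := fun i => Int.natAbs_ne_zero.2 (hD i).1.ne_zero
  have hN : ∏ i, (D i).natAbs ≠ 0 := Finset.prod_ne_zero_iff.2 fun i _ => h0 i
  have hsub : ∀ i, (D i).natAbs.primeFactors ⊆ (∏ i, (D i).natAbs).primeFactors := fun i =>
    Nat.primeFactors_mono (Finset.dvd_prod_of_mem _ (Finset.mem_univ i)) hN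
  have hR : ∀ r ∈ (∏ i, (D i).natAbs).primeFactors, r.Prime ∧ r ≠ 2 ∧ r ≠ 7 := by
    intro r hr
    have h1 := Nat.prime_of_mem_primeFactors hr
    obtain ⟨i, -, hi⟩ := (Nat.Prime.prime h1).exists_mem_finset_dvd (Nat.dvd_of_mem_primeFactors hr)
    have h2 : (r : ℤ) ∣ D i := Int.natCast_dvd.2 hi
    refine ⟨h1, ?_, ?_⟩
    · rintro rfl
      have h3 := (hD i).2.1
      have h4 : (2 : ℤ) ∣ D i := h2
      omega
    · rintro rfl
      have h3 := (hD i).2.2.1
      have h4 : (7 : ℤ) ∣ D i := h2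
      omega
  have hG : ∀ M : ℤ, Pool.Agent.Y687.MQ.AdmD M → M ≠ 1 →
      (TwoPart M ↔ (Pool.Agent.Y687.MQ.matD M).det ≠ 0) := by
    intro M hM h1
    obtain ⟨-, y, -, y2, y3⟩ := exact (M := M) hM h1
    rw [← y3, y2]
    exact Pool.Agent.Y682.YQ.zer_iff hM
  have hmain : ∀ k : ℕ, 1 ≤ k → IteratedMean k (∏ i, (D i).natAbs)
      (fun l => if (∀ i, TwoPart (D i * (l.prod : ℕ)) ↔ i ∈ A) then 1 else 0)
      (Pool.Agent.Q1.PT.jf k (Pool.Agent.Q1.PT.iR D hsub)
        (Pool.Agent.Q1.PT.tR (∏ i, (D i).natAbs).primeFactors D)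
        (fun i => Pool.Agent.Y687.MQ.matD (D i)) (Pool.Agent.Q1.PT.pat A)) := by
    intro k hk
    have h := Pool.Agent.Q1.PT.iter_jf (m := m) IteratedMean (fun N F c h => h)
      (fun k N F c g h1 h2 => ⟨g, h1, h2⟩) TwoPart hG (Pool.Agent.Q1.PT.pat A) k
      (∏ i, (D i).natAbs) (∏ i, (D i).natAbs).primeFactors hN rfl hR D hsub hD
      (fun h => absurd h (by omega))
    have e : (fun l : List ℕ => Pool.Agent.Q1.PT.pat A (Pool.Agent.Q1.PT.gd TwoPart D l)) =
        fun l : List ℕ => if (∀ i, TwoPart (D i * (l.prod : ℕ)) ↔ i ∈ A) then (1 : ℝ) else 0 := by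
      funext l
      rw [Pool.Agent.Q1.PT.pat_gd]
    rw [e] at h
    exact h
  refine ⟨⟨fun k => Pool.Agent.Q1.PT.jf k (Pool.Agent.Q1.PT.iR D hsub)
        (Pool.Agent.Q1.PT.tR (∏ i, (D i).natAbs).primeFactors D)
        (fun i => Pool.Agent.Y687.MQ.matD (D i)) (Pool.Agent.Q1.PT.pat A), fun k hk c => ?_, ?_⟩, ?_⟩
  · constructor
    · intro h
      exact unique k _ _ _ _ h (hmain k hk)
    · rintro rfl
      exact hmain k hk
  · exact Pool.Agent.Q1.PT.jf_pat (Pool.Agent.Q1.PT.iR_inj D hsub)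
      (Pool.Agent.Q1.PT.tR_inj hsub hD hinj) (fun i => Pool.Agent.Q1.PT.matD_symm (hD i)) A
  · intro M hM h1
    obtain ⟨a, y, y1, -, y3⟩ := exact hM h1
    exact ⟨a, y, y1, y3⟩

end Pool.Agent.Results.MP_92892c_nt.IndependenceOfTwists
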