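import Pool.Agent.Q155.NL.N49
import Pool.Agent.Q155.KG.Crv
import Pool.Agent.Q283.GM.BQ
import Pool.Agent.Q283.GM.Eul

/-!
# The 2-part of the leading-term formula over the divisors of almost every `D`, for all the twists of
# `X_0(49)` at once

`E_D` is the quadratic twist by `D` of `X_0(49) : y² + x y = x³ - x² - 2 x - 1`, where `D` is a squarefree
positive integer whose prime factors are `1` modulo `4` (the class). A `D` of the class is called odd if
`E_D(ℚ)` is finite, the 2-primary part of `Ш(E_D/ℚ)` is zero, `L(E_D, 1) ≠ 0` and the quotient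
`#E_D(ℚ)_tors² L(E_D, 1) / (Ω⁺ ∏ c_p)` (an algebraic number, equal to the order of `Ш(E_D/ℚ)` according to
the formula) is a unit at all the primes above two: the 2-part of the leading-term formula holds.
The corank of `D` is that of an explicit symmetric matrix over `𝔽₂` of quadratic residue symbols, with
quartic symbols of `-7` on the diagonal; `κ = (1 - 1/2) (1 - 1/8) (1 - 1/32) ⋯ = 0.4194…` and
`α_b = κ / ((2 - 1) (4 - 1) ⋯ (2^b - 1))`.

* (almost all `D`, in the natural order) There is ONE set `𝒮` of members of the class, of relative density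
  one in the class, such that for EVERY `m` of the class (no condition on the rank, on the
  Tate-Shafarevich group or on the L-function of `E_m`), for `D → ∞` in `𝒮` the share of the divisors `d` of
  `D` for which the squarefree part of `m d` is odd tends to `κ`, the share of those with corank `b` tends to
  `α_b`, uniformly in `b`, and the mean of `2 ^ corank` over the divisors of `D` tends to `2`.
* (almost all tuples) For every finite set `𝒟` of members of the class and every `ε > 0` there is a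
  constant `C` such that for all `k` and all large `X` the following holds for at least the proportion
  `1 - C (15/16)^k` of the `k`-tuples `(p_1, …, p_k)` of primes `≤ X` which are `1` modulo `4`: the primes
  `p_i` are different and prime to the `D ∈ 𝒟`, and for each `D ∈ 𝒟` the share of the odd members among the
  `2^k` numbers `D d`, `d ∣ p_1 ⋯ p_k`, differs by less than `ε` from `κ`, and the coranks have up to `ε` the
  law `α_b`.
* (one sequence for all the curves) There is a sequence `p_1 < p_2 < ⋯` of primes such that, for EVERY `D`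
  of the class which is prime to all the `p_i`, the shares over the divisors of `p_1 ⋯ p_k` differ from
  `κ` and from all the `α_b` by less than `(31/32)^k` for all large `k`.
* (the formula modulo two) For all `D` of the class the quotient is integral at all the primes above two,
  and it is a unit at these primes if and only if `D` is odd, if and only if the corank is zero.

So the 2-part of the formula has the frequency `κ` not only in the mean over all the discriminants, as in
`FormulaModTwo`, but inside the family of the twists of ANY curve `E_m` by the divisors of almost every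
single `D`. The proof: almost all `D` have many prime factors, the labels of the large ones with respect to
the small ones are regular, and the symbols of the large primes among themselves are equidistributed in
boxes; for random symbols the large primes of `d` which do not divide `d'` make the coranks of `m d` and
`m d'` almost independent, so the shares have a small variance.
-/

set_option autoImplicit false

open NumberField IsDedekindDomain WeierstrassCurve MeasureTheory

namespace Pool.Agent.Results.MP_92892c_nt.OddFormulaOverDivisors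

open Pool.Agent.TH841.SH.D (Pt Sha)

/-- For `D ≡ 1 mod 4` the quadratic twist by `D` of the elliptic curve
`X_0(49) : y² + x y = x³ - x² - 2 x - 1`:
the curve `y² + x y = x³ - (3 D + 1) / 4 x² - 2 D² x - D³`. -/
def twist (D : ℕ) : WeierstrassCurve ℤ := ⟨1, -((3 * D + 1) / 4), 0, -2 * D ^ 2, -D ^ 3⟩

/-- The curve `E_D` over `ℚ`. -/
def E (D : ℕ) : WeierstrassCurve ℚ := (twist D).map (Int.castRingHom ℚ)

/-- The equation is minimal at the finite place `v` of `ℚ`: no change of variables over `ℚ` that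
keeps the coefficients integral at `v` decreases the order of the discriminant. -/
def MinimalAt (W : WeierstrassCurve ℚ) (v : HeightOneSpectrum (𝓞 ℚ)) : Prop :=
  ∀ C : VariableChange ℚ, v.valuation ℚ (C • W).a₁ ≤ 1 → v.valuation ℚ (C • W).a₂ ≤ 1 →
    v.valuation ℚ (C • W).a₃ ≤ 1 → v.valuation ℚ (C • W).a₄ ≤ 1 → v.valuation ℚ (C • W).a₆ ≤ 1 →
    v.valuation ℚ (C • W).Δ ≤ v.valuation ℚ W.Δ

/-- `W⁰(ℚ_v)`, the group of the points of `W` over the completion `ℚ_v` with nonsingular reduction:
the point at infinity and the points `(x, y)` where `x` is not integral, or one of the two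
derivatives of `y² + a₁ x y + a₃ y - x³ - a₂ x² - a₄ x - a₆` is a unit at `(x, y)`.
Here `Pt W ℚ_v` is the group of the points of `W` over `ℚ_v`. -/
noncomputable def nonsing (W : WeierstrassCurve ℚ) (v : HeightOneSpectrum (𝓞 ℚ)) :
    AddSubgroup (Pt W (v.adicCompletion ℚ)) :=
  AddSubgroup.closure {P | ∀ x y h, P = Affine.Point.some x y h →
    1 < Valued.v x ∨
    Valued.v ((W.baseChange (v.adicCompletion ℚ)).a₁ * y -
      (3 * x ^ 2 + 2 * (W.baseChange (v.adicCompletion ℚ)).a₂ * x +
        (W.baseChange (v.adicCompletion ℚ)).a₄)) = 1 ∨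
    Valued.v (2 * y + (W.baseChange (v.adicCompletion ℚ)).a₁ * x +
      (W.baseChange (v.adicCompletion ℚ)).a₃) = 1}

/-- The Tamagawa number `c_v = [W(ℚ_v) : W⁰(ℚ_v)]` of a minimal equation. -/
noncomputable def c (W : WeierstrassCurve ℚ) (v : HeightOneSpectrum (𝓞 ℚ)) : ℕ :=
  (nonsing W v).index

/-- The product of the Tamagawa numbers. -/
noncomputable def Tam (W : WeierstrassCurve ℚ) : ℕ := ∏ᶠ v : HeightOneSpectrum (𝓞 ℚ), c W v

/-- `4 x³ + b₂ x² + 2 b₄ x + b₆ = (2 y + a₁ x + a₃)²`. -/
def cubic (W : WeierstrassCurve ℤ) {R : Type} [CommRing R] (x : R) : R :=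
  4 * x ^ 3 + W.b₂ * x ^ 2 + 2 * W.b₄ * x + W.b₆

/-- `∫_{W(ℝ)} |ω|` with `ω = dx / (2 y + a₁ x + a₃)`, as an integral over `x`: two real points lie
over each `x` with `cubic x > 0`. -/
noncomputable def realPeriod (W : WeierstrassCurve ℤ) : ℝ :=
  2 * ∫ x in {x : ℝ | 0 < cubic W x}, 1 / √(cubic W x)

open Classical in
/-- The order of the torsion subgroup of `E_D(ℚ)`. -/
noncomputable def torsOrder (D : ℕ) : ℕ :=
  Nat.card (AddCommGroup.torsion (E D).toAffine.Point)

/-- The order of the Tate-Shafarevich group predicted by the formula in rank zero, for the value `l` of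
the L-function at `s = 1`: `#E_D(ℚ)_tors² l / (Ω⁺ ∏ c_p)`. -/
noncomputable def anOrder (D : ℕ) (l : ℂ) : ℂ :=
  l * (torsOrder D : ℂ) ^ 2 / ((realPeriod (twist D) : ℝ) * (Tam (E D) : ℂ))

/-- An algebraic number which is integral at all the primes above two. -/
def IntegralAtTwo (z : ℂ) : Prop := ∃ m : ℤ, Odd m ∧ _root_.IsIntegral ℤ ((m : ℂ) * z)

/-- `E_D(ℚ)` is finite and `Ш(E_D/ℚ)` has no element of order two. -/
def Good (D : ℕ) : Prop := Finite (E D).toAffine.Point ∧ ∀ x : Sha (E D), x + x = 0 → x = 0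

/-- The 2-primary part of `Ш(E_D/ℚ)` is zero. -/
def ShaTwoPrimaryZero (D : ℕ) : Prop := ∀ (x : Sha (E D)) (n : ℕ), 2 ^ n • x = 0 → x = 0

open Classical in
/-- `1` if `m` is not a square modulo `p`, and `0` if it is -/
noncomputable def nonsq (p m : ℕ) : ZMod 2 := if IsSquare (m : ZMod p) then 0 else 1

open Classical in
/-- `1` if `-7` is not a fourth power modulo `p`, and `0` if it is -/
noncomputable def nonfourth (p : ℕ) : ZMod 2 := if ∃ y : ZMod p, y ^ 4 = -7 then 0 else 1

/-- The matrix over the field with two elements, with rows and columns indexed by `P`: the entry at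
`(i, j)` is `nonsq i j` for `i ≠ j`, and the entry at `(i, i)` is the sum of `nonfourth i` and of the
`nonsq i l` for all the `l ≠ i` in `Q` and `P`. -/
noncomputable def mat (Q P : Finset ℕ) : Matrix P P (ZMod 2) := Matrix.of fun i j =>
  if i = j then nonfourth i + ∑ q ∈ Q, nonsq i q + ∑ p ∈ P.erase i, nonsq i p else nonsq i j

/-- The class of the `D`: squarefree, all prime factors `1` modulo `4`. -/
def Class (D : ℕ) : Prop := Squarefree D ∧ ∀ p : ℕ, p.Prime → p ∣ D → p % 4 = 1

open Classical in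
/-- The prime factors of `D` which split in `ℚ(√-7)`. -/
noncomputable def splitPart (D : ℕ) : Finset ℕ := D.primeFactors.filter fun p => IsSquare (-7 : ZMod p)

open Classical in
/-- The prime factors of `D` which do not split in `ℚ(√-7)`. -/
noncomputable def inertPart (D : ℕ) : Finset ℕ := D.primeFactors.filter fun p => ¬ IsSquare (-7 : ZMod p)

/-- The corank of the matrix of `D`: the number of the columns minus the rank. -/
noncomputable def corank (D : ℕ) : ℕ :=
  (splitPart D).card - (mat (inertPart D) (splitPart D)).rank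

/-- The number `κ = (1 - 1/2) (1 - 1/8) (1 - 1/32) ⋯`. -/
noncomputable def κ : ℝ := ∏' i : ℕ, (1 - (1 / 2 : ℝ) ^ (2 * i + 1))

/-- The limit law `κ / ((2 - 1) (4 - 1) ⋯ (2 ^ b - 1))`. -/
noncomputable def α (b : ℕ) : ℝ := κ / ∏ i ∈ Finset.range b, ((2 : ℝ) ^ (i + 1) - 1)

/-- The formula modulo the primes above two, for all the `D` of the class. -/
def Formula : Prop :=
  ∀ D : ℕ, Class D →
    (∀ v : HeightOneSpectrum (𝓞 ℚ), MinimalAt (E D) v) ∧
    (∃ t : ℕ, Odd t ∧ torsOrder D = 2 * t) ∧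
    Tam (E D) = 2 ^ (1 + ((inertPart D).card + 2 * (splitPart D).card)) ∧
    (∃ Λ : ℂ → ℂ, Differentiable ℂ Λ ∧ (∀ s : ℂ, 2 < s.re → Λ s = (E D).LSeries s) ∧
      IntegralAtTwo (anOrder D (Λ 1)) ∧
      ((Λ 1 ≠ 0 ∧ IntegralAtTwo (anOrder D (Λ 1))⁻¹) ↔ Good D)) ∧
    (Good D ↔ corank D = 0) ∧ (Good D → ShaTwoPrimaryZero D)

/-- `D` is odd: `E_D(ℚ)` is finite, the 2-primary part of `Ш(E_D/ℚ)` is zero, `L(E_D, s)` is entire with
`L(E_D, 1) ≠ 0`, and the order of `Ш` which is predicted by the formula is an algebraic number which is a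
unit at all the primes above two. -/
def OddFormula (D : ℕ) : Prop :=
  Finite (E D).toAffine.Point ∧ ShaTwoPrimaryZero D ∧
    ∃ Λ : ℂ → ℂ, Differentiable ℂ Λ ∧ (∀ s : ℂ, 2 < s.re → Λ s = (E D).LSeries s) ∧ Λ 1 ≠ 0 ∧
      IntegralAtTwo (anOrder D (Λ 1)) ∧ IntegralAtTwo (anOrder D (Λ 1))⁻¹

open Classical in
/-- The `k`-tuples of primes `≤ X` which are `1` modulo `4`. -/
noncomputable def tuples (k X : ℕ) : Finset (Fin k → ℕ) :=
  Fintype.piFinset fun _ => (Finset.range (X + 1)).filter fun p => p.Prime ∧ p % 4 = 1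

/-- The share of the numbers `D ∏_{i ∈ U} p_i`, `U ⊆ {1, …, k}`, which have the property `T`. -/
noncomputable def share {k : ℕ} (p : Fin k → ℕ) (D : ℕ) (T : ℕ → Prop) : ℝ :=
  (Nat.card {U : Finset (Fin k) // T (D * ∏ i ∈ U, p i)} : ℝ) / 2 ^ k

/-- The `p_i` are prime to `D`, and the shares of the numbers `D ∏_{i ∈ U} p_i` which are odd, and which
have the corank `b`, differ by less than `ε` from `κ` and from `α_b`, for all `b`. -/
def Typical {k : ℕ} (p : Fin k → ℕ) (D : ℕ) (ε : ℝ) : Prop :=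
  (∀ i, ¬ p i ∣ D) ∧ |share p D OddFormula - κ| < ε ∧
    ∀ b : ℕ, |share p D (fun m => corank m = b) - α b| < ε

/-- The squarefree part of `m D`. -/
def tw (m D : ℕ) : ℕ := m * D / Nat.gcd m D ^ 2

/-- The number of the positive integers up to `X` with the property `T`. -/
noncomputable def count (T : ℕ → Prop) (X : ℕ) : ℕ := Nat.card {D : ℕ // (1 ≤ D ∧ D ≤ X) ∧ T D}

/-- The share of the divisors `d` of `D` for which the squarefree part of `m d` has the property `T`. -/
noncomputable def divisorShare (m D : ℕ) (T : ℕ → Prop) : ℝ :=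
  (Nat.card {d : ℕ // d ∈ D.divisors ∧ T (tw m d)} : ℝ) / D.divisors.card

/-- The mean of `2 ^ corank` over the squarefree parts of `m d`, `d ∣ D`. -/
noncomputable def divisorMean (m D : ℕ) : ℝ :=
  (∑ d ∈ D.divisors, (2 : ℝ) ^ corank (tw m d)) / D.divisors.card

/-- The shares of the divisors `d` of `D` for which the squarefree part of `m d` is odd, and has the corank
`b`, differ by less than `ε` from `κ` and from `α_b`, for all `b`, and the mean of `2 ^ corank` from `2`. -/
def TypicalDivisors (m D : ℕ) (ε : ℝ) : Prop :=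
  |divisorShare m D OddFormula - κ| < ε ∧ (∀ b : ℕ, |divisorShare m D (fun n => corank n = b) - α b| < ε) ∧
    |divisorMean m D - 2| < ε

section proof

open Pool.Agent.Y698

lemma base_eq {D j : ℕ} (hj : D = 1 + 4 * j) : E D = AX ℚ j :=
  twZ_map hj ℚ

lemma cubic_eq {D j : ℕ} (hj : D = 1 + 4 * j) {R : Type} [CommRing R] (x : R) :
    cubic (twist D) x = psD (1 + 4 * j) x := by
  have h1 : (3 * (D : ℤ) + 1) / 4 = 1 + 3 * j := by
    rw [hj]
    push_cast
    omega
  unfold cubic twist WeierstrassCurve.b₂ WeierstrassCurve.b₄ WeierstrassCurve.b₆ psD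
  simp only
  rw [h1, hj]
  push_cast
  ring

lemma real_eq {D j : ℕ} (hj : D = 1 + 4 * j) : realPeriod (twist D) =
    ∫ x in {x : ℝ | 0 < psD (1 + 4 * j) x}, 2 / Real.sqrt (psD (1 + 4 * j) x) := by
  unfold realPeriod
  simp only [cubic_eq hj]
  rw [← integral_const_mul]
  congr 1
  funext x
  ring

lemma tors_eq {D j : ℕ} (hj : D = 1 + 4 * j) :
    torsOrder D = Pool.Agent.Y698.SG.tnum (Pool.Agent.Y698.AX ℚ j) := by
  have key : ∀ i : DecidableEq ℚ, Nat.card (@AddCommGroup.torsion _
      (@WeierstrassCurve.Affine.Point.instAddCommGroup ℚ _ (Pool.Agent.Y698.AX ℚ j).toAffine i)) =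
      Pool.Agent.Y698.SG.tnum (Pool.Agent.Y698.AX ℚ j) := by
    intro i
    cases Subsingleton.elim i (fun a b => Classical.propDecidable (a = b))
    rfl
  unfold torsOrder
  rw [base_eq hj]
  exact key _

lemma an_eq {D j : ℕ} (hj : D = 1 + 4 * j) (l : ℂ) : anOrder D l = Pool.Agent.Y698.SG.quoT ℚ j l := by
  rw [Q283.GB.quoT_Q]
  unfold anOrder
  rw [tors_eq hj, base_eq hj, real_eq hj]
  have hT : Tam (Pool.Agent.Y698.AX ℚ j) = ∏ᶠ v, Pool.Agent.Y698.tam (Pool.Agent.Y698.AX ℚ j) v := rfl
  rw [hT]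

lemma v_integral {Γ : Type} [LinearOrderedCommGroupWithZero Γ] (v : Valuation ℂ Γ) {x : ℂ}
    (h : _root_.IsIntegral ℤ x) : v x ≤ 1 := by
  have h1 : _root_.IsIntegral v.integer x := h.tower_top
  exact (Valuation.integer.integers v).mem_of_integral h1

lemma v_atTwo {z : ℂ} (h : IntegralAtTwo z) {Γ : Type} [LinearOrderedCommGroupWithZero Γ]
    (v : Valuation ℂ Γ) (hv : v 2 < 1) : v z ≤ 1 := by
  obtain ⟨m, hm, hi⟩ := h
  have h1 := v_integral v hi
  rw [map_mul, v_oddI v hv hm, one_mul] at h1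
  exact h1

open Q283.GW Q283.GB
open Q283.XF (nf)
open Q283.GM (rk cR)
open scoped Classical

lemma class_iff (D : ℕ) : Class D ↔ C4 D := by
  unfold Class C4 CF
  constructor
  · rintro ⟨h1, h2⟩
    exact ⟨h1, fun p hp => ⟨Nat.prime_of_mem_primeFactors hp,
      h2 p (Nat.prime_of_mem_primeFactors hp) (Nat.dvd_of_mem_primeFactors hp)⟩⟩
  · rintro ⟨h1, h2⟩
    exact ⟨h1, fun p hp hd => (h2 p (Nat.mem_primeFactors.2 ⟨hp, hd, h1.ne_zero⟩)).2⟩

lemma A_sq {p : ℕ} (h1 : p.Prime) (h2 : p % 4 = 1) : ρ49.Φ.A p ↔ IsSquare (-7 : ZMod p) := by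
  constructor
  · intro h
    exact (spl_A h).sq
  · intro h
    by_contra h3
    exact (inq_B h1 h2 h3).ns h

lemma split_eq {D : ℕ} (h : CF D.primeFactors) : splitPart D = PA D.primeFactors := by
  unfold splitPart PA
  refine Finset.filter_congr fun p hp => ?_
  rw [A_sq (h p hp).1 (h p hp).2]

lemma inert_eq {D : ℕ} (h : CF D.primeFactors) : inertPart D = QA D.primeFactors := by
  unfold inertPart QA
  refine Finset.filter_congr fun p hp => ?_
  rw [A_sq (h p hp).1 (h p hp).2]

lemma rank_null (Q P : Finset ℕ) : P.card - (Y698.SG.mat Q P).rank =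
    Module.finrank (ZMod 2) (LinearMap.ker (Y698.SG.mat Q P).mulVecLin) := by
  have h1 := LinearMap.finrank_range_add_finrank_ker (Y698.SG.mat Q P).mulVecLin
  rw [Module.finrank_fintype_fun_eq_card, Fintype.card_coe] at h1
  have h2 : (Y698.SG.mat Q P).rank =
    Module.finrank (ZMod 2) (LinearMap.range (Y698.SG.mat Q P).mulVecLin) := rfl
  omega

lemma corank_eq {D : ℕ} (h : CF D.primeFactors) : corank D = rk ρ49.Φ nf D.primeFactors := by
  have key : ∀ Q P Q' P' : Finset ℕ, Q = Q' → P = P' →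
      P.card - (mat Q P).rank = P'.card - (Y698.SG.mat Q' P').rank := by
    rintro Q P _ _ rfl rfl
    rfl
  rw [Q283.GW.rk_eq, ← rank_null]
  exact key _ _ _ _ (inert_eq h) (split_eq h)

lemma det_eq {D : ℕ} (h : CF D.primeFactors) :
    (mat (inertPart D) (splitPart D)).det ≠ 0 ↔ corank D = 0 := by
  rw [corank_eq h, split_eq h, inert_eq h]
  exact det_rk _

lemma prod_parts {D : ℕ} (hD : Squarefree D) :
    D = (∏ q ∈ inertPart D, q) * ∏ p ∈ splitPart D, p := by
  conv_lhs => rw [← Nat.prod_primeFactors_of_squarefree hD]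
  unfold inertPart splitPart
  rw [mul_comm]
  exact (Finset.prod_filter_mul_prod_filter_not _ _ _).symm

lemma good_iff {D : ℕ} (hD : C4 D) : Good D ↔ corank D = 0 := by
  obtain ⟨j, hj⟩ := hD.2.prod
  have hDj : D = 1 + 4 * j := by
    rw [← hj, union_A, Nat.prod_primeFactors_of_squarefree hD.1]
  unfold Good
  rw [base_eq hDj, crit_AX (QA_inq hD.2) (PA_spl _) hj, det_rk, corank_eq hD.2]

lemma formula {D : ℕ} (hD : C4 D) :
    (∀ v : HeightOneSpectrum (𝓞 ℚ), MinimalAt (E D) v) ∧
    (∃ t : ℕ, Odd t ∧ torsOrder D = 2 * t) ∧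
    Tam (E D) = 2 ^ (1 + ((inertPart D).card + 2 * (splitPart D).card)) ∧
    (∃ Λ : ℂ → ℂ, Differentiable ℂ Λ ∧ (∀ s : ℂ, 2 < s.re → Λ s = (E D).LSeries s) ∧
      IntegralAtTwo (anOrder D (Λ 1)) ∧
      ((Λ 1 ≠ 0 ∧ IntegralAtTwo (anOrder D (Λ 1))⁻¹) ↔ Good D)) := by
  obtain ⟨j, hj⟩ := hD.2.prod
  have hDj : D = 1 + 4 * j := by
    rw [← hj, union_A, Nat.prod_primeFactors_of_squarefree hD.1]
  have hQ := QA_inq hD.2
  have hP := PA_spl D.primeFactors
  obtain ⟨t1, t2, t3⟩ := tam_Q hQ hP hj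
  obtain ⟨Λ, h1, h2, h3⟩ := main_Q hQ hP hj
  have hst := tors_eq hDj
  rw [good_iff hD, hst, split_eq hD.2, inert_eq hD.2]
  simp only [an_eq hDj]
  rw [base_eq hDj]
  refine ⟨t2, t3, t1, Λ, h1, h2, Pool.Agent.Y698.int_of_val fun Γ _ v hv => (h3 Γ v hv).1, ?_⟩
  rw [corank_eq hD.2, ← det_rk]
  constructor
  · rintro ⟨h4, h5⟩
    intro hdet
    refine Pool.Agent.Y698.SG.exists_val2 fun Γ _ v hv => ?_
    refine ((h3 Γ v hv).2).1 (le_antisymm (h3 Γ v hv).1 ?_) hdet
    have h6 := v_atTwo h5 v hv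
    rw [map_inv₀] at h6
    by_cases h0 : v (Pool.Agent.Y698.SG.quoT ℚ j (Λ 1)) = 0
    · exfalso
      rw [Valuation.zero_iff] at h0
      rw [Q283.GB.quoT_Q] at h0
      rcases div_eq_zero_iff.1 h0 with h7 | h7
      · rcases mul_eq_zero.1 h7 with h8 | h8
        · exact h4 h8
        · obtain ⟨m, hm, hm2⟩ := t3
          rw [hm2] at h8
          have h9 : ((2 * m : ℕ) : ℂ) = 0 := pow_eq_zero_iff (two_ne_zero) |>.1 h8
          have h10 : 2 * m = 0 := by exact_mod_cast h9
          have h11 : m = 0 := by omega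
          rw [h11] at hm
          exact absurd hm (by decide)
      · have hL := Pool.Agent.Y698.exists_LD
        obtain ⟨L, Ω, hL⟩ := hL
        have hΩ : v Ω ≠ 0 := (v.ne_zero_iff).2 hL.lat.ne
        rcases mul_eq_zero.1 h7 with h8 | h8
        · obtain ⟨k2, -⟩ := Pool.Agent.Y698.v_periodsD hL v hv (D := 1 + 4 * j) (by omega)
            ⟨2 * j, by ring⟩
          rw [h8, map_zero] at k2
          exact hΩ k2.symm
        · rw [t1] at h8
          have h9 : (2 : ℂ) ^ (1 + ((QA D.primeFactors).card + 2 * (PA D.primeFactors).card)) = 0 := by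
            exact_mod_cast h8
          exact pow_ne_zero _ two_ne_zero h9
    · exact (inv_le_one₀ (zero_lt_iff.2 h0)).1 h6
  · intro hdet
    refine ⟨?_, Pool.Agent.Y698.int_of_val fun Γ _ v hv => by
      rw [map_inv₀, ((h3 Γ v hv).2).2 hdet, inv_one]⟩
    intro h0
    refine Pool.Agent.Y698.SG.exists_val2 fun Γ _ v hv => ?_
    have h5 := ((h3 Γ v hv).2).2 hdet
    rw [h0] at h5
    unfold Pool.Agent.Y698.SG.quoT at h5
    rw [zero_mul, zero_mul, zero_div, map_zero] at h5
    exact zero_ne_one h5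

lemma α_eq (b : ℕ) : α b = Y703.CQ.c2 * Y697.PQ.cf b := by
  unfold α
  have h : ∀ r, Y697.PQ.cf r = (∏ i ∈ Finset.range r, ((2 : ℝ) ^ (i + 1) - 1))⁻¹ := by
    intro r
    induction r with
    | zero => simp [Y697.PQ.cf]
    | succ r ih =>
      rw [show Y697.PQ.cf (r + 1) = Y697.PQ.cf r / (2 ^ (r + 1) - 1) from rfl, ih,
        Finset.prod_range_succ, mul_inv, div_eq_mul_inv]
  rw [h, div_eq_mul_inv]
  rfl

lemma odd_iff {D : ℕ} (hD : C4 D) : OddFormula D ↔ corank D = 0 := by
  rw [← good_iff hD]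
  constructor
  · rintro ⟨h1, h2, -⟩
    exact ⟨h1, fun x hx => h2 x 1 (by rw [pow_one, two_nsmul]; exact hx)⟩
  · intro hG
    obtain ⟨-, -, -, Λ, h1, h2, h3, h4⟩ := formula hD
    obtain ⟨h5, h6⟩ := h4.2 hG
    refine ⟨hG.1, ?_, Λ, h1, h2, h5, h3, h6⟩
    intro x n
    induction n with
    | zero => intro h; rwa [pow_zero, one_smul] at h
    | succ n ih =>
      intro h
      apply ih
      apply hG.2
      rw [← two_nsmul, smul_smul, ← pow_succ']
      exact h

lemma corank_kn {D : ℕ} (hD : C4 D) (b : ℕ) : corank D = b ↔ _root_.Q155.KG.kn D = 2 ^ b := by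
  rw [corank_eq hD.2, _root_.Q155.KG.kn_rk hD]
  exact ⟨fun h => by rw [h], fun h => Nat.pow_right_injective le_rfl h⟩

lemma α_al (b : ℕ) : α b = _root_.Q155.KG.al b := rfl

lemma typical_of {k : ℕ} {p : Fin k → ℕ} {D : ℕ} {ε : ℝ} (hD : C4 D)
    (hp : ∀ i, _root_.Q155.KG.P1 (p i)) (hinj : Function.Injective p) (hpD : ∀ i, ¬ p i ∣ D)
    (h : _root_.Q155.KG.Nr (fun U : Finset (Fin k) => _root_.Q155.KG.kn (D * ∏ i ∈ U, p i)) ε) :
    Typical p D ε := by
  have hpf : ∀ i, p i ∉ D.primeFactors := fun i hi => hpD i (Nat.dvd_of_mem_primeFactors hi)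
  have hC : ∀ U : Finset (Fin k), C4 (D * ∏ i ∈ U, p i) := fun U =>
    _root_.Q155.KG.ad_mul hD hp hinj hpf U
  have hs : ∀ b : ℕ, share p D (fun m => corank m = b) =
      _root_.Q155.KG.shr (fun U : Finset (Fin k) => _root_.Q155.KG.kn (D * ∏ i ∈ U, p i)) b := by
    intro b
    unfold share _root_.Q155.KG.shr
    congr 2
    exact Nat.card_congr (Equiv.subtypeEquivRight fun U => corank_kn (hC U) b)
  have hs0 : share p D OddFormula = share p D (fun m => corank m = 0) := by
    unfold share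
    congr 2
    exact Nat.card_congr (Equiv.subtypeEquivRight fun U => odd_iff (hC U))
  have hb : ∀ b : ℕ, |share p D (fun m => corank m = b) - α b| < ε := fun b => by
    rw [hs, α_al]
    exact h.1 b
  refine ⟨hpD, ?_, hb⟩
  rw [hs0]
  have h0 := hb 0
  have e : α 0 = κ := by
    unfold α
    rw [Finset.range_zero, Finset.prod_empty, div_one]
  rwa [e] at h0

lemma count_eq (T : ℕ → Prop) (X : ℕ) : count T X = _root_.Q155.NL.cnt T X := by
  classical
  unfold count _root_.Q155.NL.cnt
  rw [Nat.card_congr (Equiv.subtypeEquivRight (q := fun D => D ∈ _root_.Q155.NL.cs T X)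
    fun D => _root_.Q155.NL.mem_cs.symm), Nat.card_eq_fintype_card, Fintype.card_coe]

lemma typical_div {m D : ℕ} {ε : ℝ} (hm : C4 m) (hD : C4 D)
    (h : _root_.Q155.NL.LD (fun d => _root_.Q155.KG.cr (_root_.Q155.NL.tw m d)) ε D) :
    TypicalDivisors m D ε := by
  classical
  have hcl : ∀ d ∈ D.divisors, C4 (tw m d) := fun d hd =>
    _root_.Q155.NL.tw_class hm (_root_.Q155.NL.c4_dvd hD (Nat.dvd_of_mem_divisors hd))
  have hcr : ∀ d ∈ D.divisors, corank (tw m d) = _root_.Q155.KG.cr (_root_.Q155.NL.tw m d) :=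
    fun d hd => corank_eq (hcl d hd).2
  have hs : ∀ b : ℕ, divisorShare m D (fun n => corank n = b) = _root_.Q155.NL.dsh
      (fun d => _root_.Q155.KG.cr (_root_.Q155.NL.tw m d)) D b := by
    intro b
    unfold divisorShare _root_.Q155.NL.dsh
    congr 2
    rw [Nat.card_congr (Equiv.subtypeEquivRight (q := fun d => d ∈ D.divisors.filter
      fun d => _root_.Q155.KG.cr (_root_.Q155.NL.tw m d) = b) fun d => ?_),
      Nat.card_eq_fintype_card, Fintype.card_coe]
    · rw [Finset.mem_filter]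
      refine and_congr_right fun hd => ?_
      show corank (tw m d) = b ↔ _
      rw [hcr d hd]
  have hs0 : divisorShare m D OddFormula = divisorShare m D (fun n => corank n = 0) := by
    unfold divisorShare
    congr 2
    exact Nat.card_congr (Equiv.subtypeEquivRight fun d => and_congr_right fun hd =>
      odd_iff (hcl d hd))
  have hmn : divisorMean m D = _root_.Q155.NL.dme
      (fun d => _root_.Q155.KG.cr (_root_.Q155.NL.tw m d)) D := by
    unfold divisorMean _root_.Q155.NL.dme
    rw [Finset.sum_congr rfl fun d hd => by rw [hcr d hd]]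
  have hb : ∀ b : ℕ, |divisorShare m D (fun n => corank n = b) - α b| < ε := fun b => by
    rw [hs, α_al]
    exact h.1 b
  refine ⟨?_, hb, ?_⟩
  · rw [hs0]
    have h0 := hb 0
    have e : α 0 = κ := by
      unfold α
      rw [Finset.range_zero, Finset.prod_empty, div_one]
    rwa [e] at h0
  · rw [hmn]
    exact h.2

lemma tuples_eq (k X : ℕ) : tuples k X = _root_.Q155.KG.tupP k X := by
  unfold tuples _root_.Q155.KG.tupP
  congr 1
  funext i
  ext p
  rw [_root_.Q155.KG.mem_ps, Finset.mem_filter, Finset.mem_range, Nat.lt_succ_iff]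
  exact Iff.rfl

end proof

open Classical in
/-- **The 2-part of the leading-term formula over the divisors of almost every `D`.** -/
theorem result :
    -- almost all `D`, in the natural order, one set of `D` for all the curves
    (∃ 𝒮 : Set ℕ, (∀ D ∈ 𝒮, Class D) ∧
      Filter.Tendsto (fun X : ℕ => (count (fun D => D ∈ 𝒮) X : ℝ) / (count Class X : ℝ))
        Filter.atTop (nhds 1) ∧
      ∀ m : ℕ, Class m → ∀ ε : ℝ, 0 < ε → ∀ᶠ D : ℕ in Filter.atTop, D ∈ 𝒮 →
        TypicalDivisors m D ε) ∧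
    -- almost all the tuples of primes
    (∀ 𝒟 : Finset ℕ, (∀ D ∈ 𝒟, Class D) → ∀ ε : ℝ, 0 < ε → ∃ C : ℝ, ∀ k : ℕ, ∃ X₀ : ℕ, ∀ X : ℕ,
      X₀ ≤ X → (1 - C * (15 / 16) ^ k) * ((tuples k X).card : ℝ) ≤
        (((tuples k X).filter fun p => Function.Injective p ∧ ∀ D ∈ 𝒟, Typical p D ε).card : ℝ)) ∧
    -- one sequence of primes for all the curves
    (∃ p : ℕ → ℕ, StrictMono p ∧
      (∀ i, (p i).Prime ∧ p i % 4 = 1 ∧ IsSquare (-7 : ZMod (p i))) ∧
      ∀ D : ℕ, Class D → (∀ i, ¬ p i ∣ D) → ∃ k₀ : ℕ, ∀ k : ℕ, k₀ ≤ k →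
        Typical (fun i : Fin k => p i) D ((31 / 32) ^ k)) ∧
    -- the formula modulo the primes above two
    Formula ∧ (∀ D : ℕ, Class D → (OddFormula D ↔ corank D = 0)) ∧
    HasSum α 1 ∧ 0.4194 < κ ∧ κ < 0.4195 := by
  classical
  refine ⟨?_, fun 𝒟 h𝒟 ε hε => ?_, ?_, fun D hD => ?_, fun D hD => odd_iff ((class_iff D).1 hD), ?_,
    Pool.Agent.Y948.CQ.t_C2.2.2.2.1, Pool.Agent.Y948.CQ.t_C2.2.2.2.2⟩
  · obtain ⟨S, h1, h2, h3⟩ := _root_.Q155.NL.dense49
    refine ⟨{D | S D}, fun D hD => (class_iff D).2 (h1 D hD), ?_, fun m hm ε hε => ?_⟩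
    · refine h2.congr fun X => ?_
      rw [count_eq, count_eq, show Class = Q283.GW.C4 from funext fun D => propext (class_iff D)]
      rfl
    · have hm' := (class_iff m).1 hm
      filter_upwards [h3 m hm' ε hε] with D hD hS
      exact typical_div hm' (h1 D hS) (hD hS)
  · obtain ⟨C, hC⟩ := _root_.Q155.KG.divisors_law (𝒟 := 𝒟) (fun D hD => (class_iff D).1 (h𝒟 D hD)) hε
    refine ⟨C, fun k => ?_⟩
    obtain ⟨X₀, hX₀⟩ := hC k
    refine ⟨X₀, fun X hX => ?_⟩
    rw [tuples_eq]
    refine (hX₀ X hX).trans ?_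
    refine (Nat.cast_le (α := ℝ)).2 (Finset.card_le_card fun p hp => ?_)
    obtain ⟨h1, h2, h3⟩ := Finset.mem_filter.1 hp
    refine Finset.mem_filter.2 ⟨h1, h2, fun D hD => ?_⟩
    exact typical_of ((class_iff D).1 (h𝒟 D hD)) (fun i => (_root_.Q155.KG.mem_tupP.1 h1 i).2) h2
      (h3 D hD).1 (h3 D hD).2
  · obtain ⟨p, h1, h2, h3⟩ := _root_.Q155.KG.sequence_law
    refine ⟨p, h1, fun i => ⟨(h2 i).1.1, (h2 i).1.2, (h2 i).2⟩, fun D hD hpD => ?_⟩
    obtain ⟨k₀, hk₀⟩ := h3 D ((class_iff D).1 hD) hpD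
    refine ⟨k₀, fun k hk => typical_of ((class_iff D).1 hD) (fun i => (h2 i).1) ?_
      (fun i => hpD i) (hk₀ k hk)⟩
    intro i j hij
    exact Fin.ext (h1.injective hij)
  · have hC := (class_iff D).1 hD
    obtain ⟨h1, h2, h3, h4⟩ := formula hC
    refine ⟨h1, h2, h3, h4, good_iff hC, fun hG => ?_⟩
    exact ((odd_iff hC).2 ((good_iff hC).1 hG)).2.1
  · have e : α = Q283.GS.al := funext fun b => α_eq b
    rw [e]
    exact Q283.GS.hasSum_al

end Pool.Agent.Results.MP_92892c_nt.OddFormulaOverDivisors
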