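import Pool.Agent.Q284.A.Dens
import Pool.Agent.Q284.A.Tor2
import Pool.Agent.Q1.PT.Dens

/-!
# The leading-term formula for the prime twists of every twist of `X_0(14)` in the class

`E_M` (`M = 1` modulo `4`) is the quadratic twist of `X_0(14)` by `M`, in the minimal form `WM M`. Let `D` be
ANY element of the class of the theorem `PerfectSquare` (row MP_9c97e9_nt): squarefree of any sign, `1` modulo
`4`, a square modulo `7`, all prime factors different from `3` and split completely in `ℚ(√-1, √2, √-7)` or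
inert in `ℚ(√2)` and in `ℚ(√-7)`.  No condition is put on the rank, the Tate-Shafarevich group or the L-series
of `E_D`.  Let `p` run over the split primes not dividing `D`.

* The quotient `L(E_{Dp}, 1) #E_{Dp}(ℚ)_tors² / (Ω⁺ ∏ c_q)` is exactly the square of an integer `y_p`, for every
  `p`; the equation is minimal, the order of the torsion group is `2`, `∏ c_q = 6 · 4^e` or `36 · 4^e`.
* `y_p` is congruent modulo `2` to the determinant of an explicit matrix over `𝔽₂` which depends on `p` only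
  through Legendre symbols: the matrix of `D` with `v` added to the diagonal, bordered by `v` and a corner `d`,
  where `v` are the symbols of the split prime factors of `D` modulo `p` and `d` is the sum of the symbols of all prime
  factors of `D` and of one symbol for the divisibility of `#E_1(𝔽_p)` by `8`.
* `y_p` is odd if and only if `E_{Dp}(ℚ)` is finite and `Ш(E_{Dp}/ℚ)[2] = 0`, if and only if `E_{Dp}(ℚ)` is finite,
  `Ш(E_{Dp}/ℚ)[2^∞] = 0` and the 2-part of the leading-term formula holds.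
* The split primes with `y_p` odd have a natural density in the set of all split primes; it is the proportion
  `c(D) > 0` of the nonsingular matrices among the `2^(n+1)` bordered matrices of `D`.

Inputs: the exact value as a square is helper284's theorem (`Pool/Agent/Q284/A`, see `PerfectSquare`), based on the
starting files `Z704`, `Z705`, `Y17`, `Y687`; the equidistribution of the symbols and the bordered matrices are
helper283's (`Pool/Agent/Q283/TW`, see `PrimeTwistsOfEveryTwist`, row MP_696deb_nt).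
-/

set_option autoImplicit false

open Finset Filter Topology

namespace Pool.Agent.Results.MP_92892c_nt.PrimeTwistSquares

open Pool.Agent.W97.MT (IsGloballyMinimal)
open Pool.Agent.Y700 (WM Omega IsL tamProd EQ)

/-- primes inert in `ℚ(√-7)` and in `ℚ(√2)` -/
def Inert (q : ℕ) : Prop :=
  q.Prime ∧ (q % 8 = 3 ∨ q % 8 = 5) ∧ (q % 7 = 3 ∨ q % 7 = 5 ∨ q % 7 = 6)

/-- primes congruent to `1` modulo `8` that split in `ℚ(√-7)` -/
def Split (p : ℕ) : Prop := p.Prime ∧ p % 8 = 1 ∧ (p % 7 = 1 ∨ p % 7 = 2 ∨ p % 7 = 4)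

/-- the class of discriminants (`D = 1` is allowed): squarefree, `1` modulo `4`, a square modulo `7`, all
prime factors different from `3` and split or inert as above -/
def Family (D : ℤ) : Prop := Squarefree D ∧ D % 4 = 1 ∧ (D % 7 = 1 ∨ D % 7 = 2 ∨ D % 7 = 4) ∧
  ∀ p : ℕ, p.Prime → (p : ℤ) ∣ D → p ≠ 3 ∧ (Split p ∨ Inert p)

open Classical in
/-- the number of the prime factors `p` of `M` with `-7` a square modulo `p`, plus half the number
of the others -/
noncomputable def expo (M : ℤ) : ℕ :=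
  (M.natAbs.primeFactors.filter fun p => IsSquare (-7 : ZMod p)).card +
    (M.natAbs.primeFactors.filter fun p => ¬ IsSquare (-7 : ZMod p)).card / 2

/-- the order of the torsion group of `E_M(ℚ)` -/
noncomputable def torsionOrder (M : ℤ) : ℕ :=
  Nat.card (AddCommGroup.torsion (EQ (WM M)).toAffine.Point)

/-- `L(E_M, 1) = z² Ω ∏ c_p / #E_M(ℚ)_tors²`: the order of `Ш` predicted by the formula is `z²` -/
def Quotient (M : ℤ) (z : ℝ) : Prop := ∀ f, IsL (WM M) f →
  f 1 = ((z ^ 2 * (Omega (WM M) * tamProd (WM M) / (torsionOrder M : ℝ) ^ 2) : ℝ) : ℂ)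

/-- `E_M(ℚ)` is finite and `Ш(E_M/ℚ)` has no element of order two -/
def RankZeroShaTwo (M : ℤ) : Prop := Finite (EQ (WM M)).toAffine.Point ∧
  ∀ x : Pool.Agent.TH841.SH.D.Sha (EQ (WM M)), 2 • x = 0 → x = 0

/-- the `2`-part of the leading-term formula with trivial `2`-part of `Ш`: `E_M(ℚ)` is
finite, `Ш(E_M/ℚ)[2^∞] = 0` and the quotient `L(E_M, 1) #E_M(ℚ)_tors² / (Ω ∏ c_p)` is the square of an
odd integer -/
def TwoPart (M : ℤ) : Prop := Finite (EQ (WM M)).toAffine.Point ∧
  (∀ (n : ℕ) (x : Pool.Agent.TH841.SH.D.Sha (EQ (WM M))), 2 ^ n • x = 0 → x = 0) ∧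
  ∃ z : ℤ, Odd z ∧ Quotient M z

/-- the split primes dividing `D` -/
def splitPrimes (D : ℤ) : Finset ℕ := D.natAbs.primeFactors.filter fun p => p % 8 = 1

/-- the number of points of `E_1 : y² = x³ + 5805 x - 285714` modulo `p`, the point at infinity included -/
noncomputable def points (p : ℕ) : ℕ :=
  Nat.card {q : ZMod p × ZMod p // q.2 ^ 2 = q.1 ^ 3 + 5805 * q.1 - 285714} + 1

open Classical in
/-- the symbol of `a` modulo `p`, additively -/
noncomputable def symbol (p a : ℕ) : ZMod 2 := if IsSquare (a : ZMod p) then 0 else 1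

open Classical in
/-- the matrix of `D` over `𝔽₂`, indexed by the split primes dividing `D`: the entry at `i ≠ j` is the symbol
of `j` modulo `i`; the entry at `i` on the diagonal is the number of the prime factors `r ≠ i` of `D` which
are not squares modulo `i`, increased by `1` if the number of the points of `E_1` modulo `i` is not divisible
by `8` -/
noncomputable def mat (D : ℤ) : Matrix (splitPrimes D) (splitPrimes D) (ZMod 2) :=
  Matrix.of fun i j =>
    if i = j then
      (((D.natAbs.primeFactors.filter fun r : ℕ => r ≠ (i : ℕ) ∧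
        ¬ IsSquare (r : ZMod (i : ℕ))).card : ZMod 2) + if 8 ∣ points (i : ℕ) then 0 else 1)
    else if IsSquare (((j : ℕ)) : ZMod (i : ℕ)) then 0 else 1

/-- the matrix `M` with `v` added to the diagonal, bordered by `v` and the corner `d` -/
def bordered {n : Type} [DecidableEq n] (M : Matrix n n (ZMod 2)) (v : n → ZMod 2) (d : ZMod 2) :
    Matrix (n ⊕ Unit) (n ⊕ Unit) (ZMod 2) :=
  Matrix.fromBlocks (M + Matrix.diagonal v) (Matrix.of fun i _ => v i) (Matrix.of fun _ j => v j)
    (Matrix.of fun _ _ => d)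

/-- the corner of `p`: the symbols modulo `p` of the prime factors of `D`, and `1` if the number of the
points of `E_1` modulo `p` is not divisible by `8` -/
noncomputable def corner (D : ℤ) (p : ℕ) : ZMod 2 :=
  ∑ r ∈ D.natAbs.primeFactors, symbol p r + if 8 ∣ points p then 0 else 1

/-- the proportion of the nonsingular matrices among the bordered matrices of `D` -/
noncomputable def c (D : ℤ) : ℝ :=
  (Nat.card {x : (splitPrimes D → ZMod 2) × ZMod 2 // (bordered (mat D) x.1 x.2).det ≠ 0} : ℝ) /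
    2 ^ ((splitPrimes D).card + 1)

theorem zer_iff {M : ℤ} : Pool.Agent.Y682.YQ.Zer M ↔ RankZeroShaTwo M := by
  unfold Pool.Agent.Y682.YQ.Zer RankZeroShaTwo
  refine and_congr Iff.rfl (forall_congr' fun x => ?_)
  rw [two_nsmul]

theorem exists_root {D : ℤ} (h : D % 7 = 1 ∨ D % 7 = 2 ∨ D % 7 = 4) :
    ∃ β : ZMod 7, β ^ 2 = -((Pool.Agent.Q284.A.nrm D : ℤ) : ZMod 7) := by
  have key : ∀ z : ZMod 7, (z = 1 ∨ z = 2 ∨ z = 4) →
      (∃ β : ZMod 7, β ^ 2 = -(3 * z)) ∧ ∃ β : ZMod 7, β ^ 2 = z := by decide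
  have hz : ((D : ℤ) : ZMod 7) = 1 ∨ ((D : ℤ) : ZMod 7) = 2 ∨ ((D : ℤ) : ZMod 7) = 4 := by
    have e : ((D : ℤ) : ZMod 7) = ((D % 7 : ℤ) : ZMod 7) := by
      have := ZMod.intCast_mod D 7
      exact_mod_cast this.symm
    rw [e]
    rcases h with h | h | h <;> rw [h] <;> norm_num
  obtain ⟨h1, h2⟩ := key _ hz
  unfold Pool.Agent.Q284.A.nrm
  split_ifs
  · obtain ⟨β, hβ⟩ := h1
    exact ⟨β, by rw [hβ]; push_cast; ring⟩
  · obtain ⟨β, hβ⟩ := h2
    exact ⟨β, by rw [hβ]; push_cast; ring⟩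

theorem exact {M : ℤ} (h : Family M) (h1 : M ≠ 1) :
    IsGloballyMinimal (WM M) ∧ tamProd (WM M) = (if 0 < M then 6 else 36) * 4 ^ expo M ∧
    torsionOrder M = 2 ∧ 0 < Omega (WM M) ∧ (∃ f, IsL (WM M) f) ∧
    ∃ y : ℤ, Quotient M y ∧ (Odd y ↔ RankZeroShaTwo M) ∧ (Odd y ↔ TwoPart M) := by
  obtain ⟨hc, hf⟩ := Pool.Agent.Q284.A.fam (D := M) h h1
  obtain ⟨β, hβ⟩ := exists_root hc.2.2.2.1
  have h4 : M % 4 = 1 := h.2.1
  have ht : torsionOrder M = 2 := Pool.Agent.Q284.A.tor_two h4 hc.1 hc.2.1 hc.2.2.1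
  obtain ⟨a1, a2, a3, a4, k, Y, k1, k2, k3, k4⟩ :=
    Pool.Agent.Q284.A.main_gen (D := M) hc (β := β) hβ
  have ht' : Pool.Agent.Q284.A.tor M = 2 := ht
  have hk : k = 1 := by omega
  have k5 : Quotient M (k * Y / 2 ^ expo M) := k4
  rw [hk, Nat.cast_one, one_mul] at k5
  obtain ⟨y, y1, y2⟩ := hf β hβ
  have y1' : Pool.Agent.Q284.A.gross M β = 3 * 2 ^ expo M * y := y1
  rw [zer_iff] at y2
  have hY : Y = 2 ^ expo M * y := by
    have h3 : 3 * Y = 3 * (2 ^ expo M * y) := by rw [← k3, y1']; ring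
    linarith
  have e : ((Y : ℝ) / 2 ^ expo M) = (y : ℝ) := by
    rw [hY]
    push_cast
    field_simp
  rw [e] at k5
  refine ⟨a1, a2, ht, a3, a4, y, k5, y2, ?_⟩
  constructor
  · intro hy
    have hz := y2.1 hy
    refine ⟨hz.1, fun n x hx => ?_, y, hy, k5⟩
    exact Pool.Agent.Q284.A.sha_two (D := M) h (zer_iff.2 hz) n x hx
  · rintro ⟨h1, h2, -⟩
    exact y2.2 ⟨h1, fun x hx => h2 1 x (by rw [pow_one]; exact hx)⟩

open Classical in
theorem mat_eq {D : ℤ} (hD : Family D) : mat D = Y687.MQ.matD D := by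
  obtain ⟨hP, -, -, -⟩ := Y687.MQ.of_admD (D := D) hD
  ext i j
  have h1 : (8 ∣ points (i : ℕ)) ↔ 8 ∣ Y687.NN 1 (i : ℕ) :=
    Q283.TW.points_iff (hP i i.2)
  show (if i = j then
      (((D.natAbs.primeFactors.filter fun r : ℕ => r ≠ (i : ℕ) ∧
        ¬ IsSquare (r : ZMod (i : ℕ))).card : ZMod 2) + if 8 ∣ points (i : ℕ) then 0 else 1)
    else if IsSquare (((j : ℕ)) : ZMod (i : ℕ)) then 0 else 1) =
    (if i = j then
      (((D.natAbs.primeFactors.filter fun r : ℕ => r ≠ (i : ℕ) ∧
        ¬ IsSquare (r : ZMod (i : ℕ))).card : ZMod 2) + if 8 ∣ Y687.NN 1 (i : ℕ) then 0 else 1)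
    else if IsSquare (((j : ℕ)) : ZMod (i : ℕ)) then 0 else 1)
  by_cases h8 : 8 ∣ points (i : ℕ)
  · rw [if_pos h8, if_pos (h1.1 h8)]
  · rw [if_neg h8, if_neg (fun h => h8 (h1.2 h))]

theorem sym_eq {D : ℤ} {p : ℕ} (hp : Split p) :
    Pool.Agent.Q1.PT.sym D p = (fun q : splitPrimes D => symbol p q, corner D p) := by
  have h1 := Q283.TW.xp1_eq hp
  have h2 : (8 ∣ points p) ↔ 8 ∣ Y687.NN 1 p := Q283.TW.points_iff hp
  refine Prod.ext rfl ?_
  show ∑ r ∈ D.natAbs.primeFactors, Q283.TW.nrp p r + Q283.TW.xp1 p =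
    ∑ r ∈ D.natAbs.primeFactors, symbol p r + if 8 ∣ points p then 0 else 1
  rw [h1]
  congr 1
  by_cases h8 : 8 ∣ points p
  · rw [if_pos h8, if_pos (h2.1 h8)]
  · rw [if_neg h8, if_neg (fun h => h8 (h2.2 h))]

open Classical in
/-- **The theorem.** -/
theorem result (D : ℤ) (hD : Family D) :
    (∀ p : ℕ, Split p → ¬ (p : ℤ) ∣ D →
      IsGloballyMinimal (WM (D * p)) ∧
      tamProd (WM (D * p)) = (if 0 < D then 6 else 36) * 4 ^ expo (D * p) ∧
      torsionOrder (D * p) = 2 ∧ 0 < Omega (WM (D * p)) ∧ (∃ f, IsL (WM (D * p)) f) ∧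
      ∃ y : ℤ, Quotient (D * p) y ∧
        (y : ZMod 2) = (bordered (mat D) (fun q => symbol p q) (corner D p)).det ∧
        (Odd y ↔ RankZeroShaTwo (D * p)) ∧ (Odd y ↔ TwoPart (D * p))) ∧
    0 < c D ∧
    Tendsto (fun X : ℕ =>
        (((range (X + 1)).filter fun p => Split p ∧ ¬ (p : ℤ) ∣ D ∧ TwoPart (D * p)).card : ℝ) /
        (((range (X + 1)).filter fun p => Split p).card : ℝ)) atTop (𝓝 (c D)) := by
  have hD0 : D ≠ 0 := hD.1.ne_zero
  have hpf : ∀ p : ℕ, Split p → ((¬ (p : ℤ) ∣ D) ↔ p ∉ D.natAbs.primeFactors) := by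
    intro p hp
    rw [Nat.mem_primeFactors, Int.natCast_dvd]
    constructor
    · rintro h ⟨-, h2, -⟩
      exact h h2
    · intro h h2
      exact h ⟨hp.1, h2, Int.natAbs_ne_zero.2 hD0⟩
  have hne : ∀ p : ℕ, Split p → D * (p : ℤ) ≠ 1 := by
    intro p hp h
    have h1 : (p : ℤ) ∣ 1 := ⟨D, by rw [← h]; ring⟩
    have h2 : p ∣ 1 := by exact_mod_cast h1
    exact hp.1.one_lt.ne' (Nat.dvd_one.1 h2)
  have hdet : ∀ p : ℕ, Split p → p ∉ D.natAbs.primeFactors →
      (RankZeroShaTwo (D * p) ↔ (bordered (mat D) (fun q => symbol p q) (corner D p)).det ≠ 0) := by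
    intro p hp hpD
    have h1 := Q283.TW.admD_mul (D := D) hD hp hpD
    rw [← zer_iff, Pool.Agent.Y682.YQ.zer_iff h1, Q283.TW.det_eq hD hp hpD]
    have h2 := sym_eq (D := D) hp
    have h3 : (Q283.TW.bord (Y687.MQ.matD D) (fun q : Y687.MQ.SP D => Q283.TW.nrp p q)
        (∑ r ∈ D.natAbs.primeFactors, Q283.TW.nrp p r + Q283.TW.xp1 p)) =
        Q283.TW.bord (Y687.MQ.matD D) (Pool.Agent.Q1.PT.sym D p).1 (Pool.Agent.Q1.PT.sym D p).2 := rfl
    rw [h3, h2, ← mat_eq hD]
    rfl
  refine ⟨?_, ?_, ?_⟩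
  · intro p hp hpD
    have hpD' := (hpf p hp).1 hpD
    have h1 : Family (D * p) := Q283.TW.admD_mul (D := D) hD hp hpD'
    obtain ⟨a1, a2, a3, a4, a5, y, y1, y2, y3⟩ := exact h1 (hne p hp)
    have hp0 : (0 : ℤ) < p := by exact_mod_cast hp.1.pos
    have hsg : (0 < D * (p : ℤ)) ↔ 0 < D := by
      constructor
      · intro h
        exact (pos_iff_pos_of_mul_pos h).2 hp0
      · intro h
        exact mul_pos h hp0
    refine ⟨a1, ?_, a3, a4, a5, y, y1, ?_, y2, y3⟩
    · rw [a2]
      by_cases h0 : 0 < D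
      · rw [if_pos h0, if_pos (hsg.2 h0)]
      · rw [if_neg h0, if_neg (fun h => h0 (hsg.1 h))]
    · have h2 := y2.trans (hdet p hp hpD')
      have key : ∀ x : ZMod 2, x = 0 ∨ x = 1 := by decide
      rcases Int.even_or_odd y with hy | hy
      · have h3 : (bordered (mat D) (fun q => symbol p q) (corner D p)).det = 0 := by
          by_contra hne'
          exact (Int.not_odd_iff_even.2 hy) (h2.2 hne')
        rw [h3]
        exact (ZMod.intCast_zmod_eq_zero_iff_dvd y 2).2 hy.two_dvd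
      · have h3 := h2.1 hy
        rcases key (bordered (mat D) (fun q => symbol p q) (corner D p)).det with h4 | h4
        · exact absurd h4 h3
        · rw [h4]
          obtain ⟨m, rfl⟩ := hy
          push_cast
          rw [show (2 : ZMod 2) = 0 from rfl, zero_mul, zero_add]
  · have h1 : c D = Q283.TW.prop (Y687.MQ.matD D) := by
      unfold c Q283.TW.prop
      rw [mat_eq hD]
      have : Fintype.card (Y687.MQ.SP D) = (splitPrimes D).card := Fintype.card_coe _
      rw [this]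
      rfl
    rw [h1]
    exact Q283.TW.prop_pos _
  · have h1 : c D = Q283.TW.prop (Y687.MQ.matD D) := by
      unfold c Q283.TW.prop
      rw [mat_eq hD]
      have : Fintype.card (Y687.MQ.SP D) = (splitPrimes D).card := Fintype.card_coe _
      rw [this]
      rfl
    rw [h1]
    have h := Q283.TW.twist_density (D := D) hD (fun p => ¬ (p : ℤ) ∣ D ∧ TwoPart (D * p)) (by
      intro p hp hpD
      have h2 : Family (D * p) := Q283.TW.admD_mul (D := D) hD hp hpD
      obtain ⟨-, -, -, -, -, y, -, y2, y3⟩ := exact h2 (hne p hp)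
      rw [← Pool.Agent.Y682.YQ.zer_iff h2, zer_iff, ← y2, y3]
      exact ⟨fun h => h.2, fun h => ⟨(hpf p hp).2 hpD, h⟩⟩)
    refine h.congr fun X => ?_
    congr

end Pool.Agent.Results.MP_92892c_nt.PrimeTwistSquares
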